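import Pool.Agent.Lib.P913.CMDef

/-!
# Module BChk: the number of steps of a bit machine is computable

`bhn M m c`: the bit machine `M` halts after at most `m` steps from the configuration `c`.

PROOFS.  `BC N = Fin N × ℕ × Bool × ℕ` (for `N = 0` there is no configuration; all is fine).  `bst_prim`: `bst M c` depends on
the finite part `(c.1, c.2.2.1)` through `M` : for every fixed value `x : Fin N × Bool` of the finite part the new
configuration is a primitive recursive function of the numbers (`Primrec.nat_div2`, `Primrec.nat_bodd`, `Primrec.nat_add`,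
`Primrec.nat_mul`, `Primrec.dom_finite` for `Bool.toNat`).  Convenient: code the action by finite functions
`f : Fin N × Bool → Fin N`, `k : Fin N × Bool → Fin 5` (halt, write 0, write 1, right, left), which are primitive
recursive (`Primrec.dom_finite`), and use `Primrec.ite` / `Primrec.cond` with `Primrec.eq` for the five cases.
`bhalt_prim`: `(bstep M c).isNone` is a function of the finite part.
`bhn_prim`: `List.any` over `List.range (m + 1)` of `(bstep M ((bst M)^[i] c)).isNone`: `Primrec.nat_iterate`; `any` as a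
recursion on `m` (`Primrec.nat_rec`): `bhn M 0 c = .. `, `bhn M (m + 1) c = bhn M m c || (bstep M ((bst M)^[m + 1] c)).isNone`
(`List.range_succ`, `List.any_append`).
-/

set_option autoImplicit false

namespace R913

open P913

/-- the bit machine halts after at most `m` steps -/
def bhn {N : ℕ} (M : BM N) (m : ℕ) (c : BC N) : Bool :=
  (List.range (m + 1)).any fun i => (bstep M ((bst M)^[i] c)).isNone

namespace BChkAux

/-- the action -/
def act {N : ℕ} (M : BM N) (x : Fin N × Bool) : Fin 5 :=
  match M x.1 x.2 with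
  | none => 0
  | some (_, Act.wr true) => 1
  | some (_, Act.wr false) => 2
  | some (_, Act.mr) => 3
  | some (_, Act.ml) => 4

/-- the next state -/
def nxt {N : ℕ} (M : BM N) (x : Fin N × Bool) : Fin N :=
  match M x.1 x.2 with
  | none => x.1
  | some (q, _) => q

theorem bst_eq {N : ℕ} (M : BM N) (c : BC N) : bst M c =
    if act M (c.1, c.2.2.1) = 0 then c
    else if act M (c.1, c.2.2.1) = 1 then (nxt M (c.1, c.2.2.1), c.2.1, true, c.2.2.2)
    else if act M (c.1, c.2.2.1) = 2 then (nxt M (c.1, c.2.2.1), c.2.1, false, c.2.2.2)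
    else if act M (c.1, c.2.2.1) = 3 then
      (nxt M (c.1, c.2.2.1), 2 * c.2.1 + c.2.2.1.toNat, c.2.2.2.bodd, c.2.2.2.div2)
    else (nxt M (c.1, c.2.2.1), c.2.1.div2, c.2.1.bodd, 2 * c.2.2.2 + c.2.2.1.toNat) := by
  obtain ⟨q, l, b, r⟩ := c
  unfold bst bstep act nxt
  simp only
  rcases h : M q b with _ | ⟨q', a⟩
  · simp
  · rcases a with (_ | _) | _ | _ <;> simp

theorem isNone_eq {N : ℕ} (M : BM N) (c : BC N) : (bstep M c).isNone =
    decide (act M (c.1, c.2.2.1) = 0) := by
  obtain ⟨q, l, b, r⟩ := c
  unfold bstep act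
  simp only
  rcases h : M q b with _ | ⟨q', a⟩
  · simp
  · rcases a with (_ | _) | _ | _ <;> simp

theorem fin_prim {N : ℕ} {α : Type*} [Primcodable α] (f : Fin N × Bool → α) :
    Primrec fun c : BC N => f (c.1, c.2.2.1) :=
  (Primrec.dom_finite f).comp
    (Primrec.pair Primrec.fst (Primrec.fst.comp (Primrec.snd.comp Primrec.snd)))

theorem act_pred {N : ℕ} (M : BM N) (k : Fin 5) :
    PrimrecPred fun c : BC N => act M (c.1, c.2.2.1) = k :=
  Primrec.eq.comp (fin_prim (act M)) (Primrec.const k)

theorem toNat_prim {N : ℕ} : Primrec fun c : BC N => c.2.2.1.toNat :=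
  fin_prim fun x => x.2.toNat

theorem l_prim {N : ℕ} : Primrec fun c : BC N => c.2.1 := Primrec.fst.comp Primrec.snd

theorem r_prim {N : ℕ} : Primrec fun c : BC N => c.2.2.2 :=
  Primrec.snd.comp (Primrec.snd.comp Primrec.snd)

end BChkAux

open BChkAux

theorem bst_prim {N : ℕ} (M : BM N) : Primrec (bst M) := by
  refine Primrec.of_eq ?_ (fun c => (bst_eq M c).symm)
  refine Primrec.ite (act_pred M 0) Primrec.id ?_
  refine Primrec.ite (act_pred M 1) ?_ ?_
  · exact Primrec.pair (fin_prim (nxt M)) (Primrec.pair l_prim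
      (Primrec.pair (Primrec.const true) r_prim))
  refine Primrec.ite (act_pred M 2) ?_ ?_
  · exact Primrec.pair (fin_prim (nxt M)) (Primrec.pair l_prim
      (Primrec.pair (Primrec.const false) r_prim))
  refine Primrec.ite (act_pred M 3) ?_ ?_
  · exact Primrec.pair (fin_prim (nxt M)) (Primrec.pair
      (Primrec.nat_add.comp (Primrec.nat_double.comp l_prim) toNat_prim)
      (Primrec.pair (Primrec.nat_bodd.comp r_prim) (Primrec.nat_div2.comp r_prim)))
  · exact Primrec.pair (fin_prim (nxt M)) (Primrec.pair (Primrec.nat_div2.comp l_prim)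
      (Primrec.pair (Primrec.nat_bodd.comp l_prim)
        (Primrec.nat_add.comp (Primrec.nat_double.comp r_prim) toNat_prim)))

theorem bhalt_prim {N : ℕ} (M : BM N) : Primrec fun c : BC N => (bstep M c).isNone := by
  refine Primrec.of_eq ?_ (fun c => (isNone_eq M c).symm)
  exact PrimrecPred.decide (act_pred M 0)

theorem bhn_prim {N : ℕ} (M : BM N) : Primrec fun p : ℕ × BC N => bhn M p.1 p.2 := by
  have h1 : ∀ m c, bhn M (m + 1) c = (bhn M m c || (bstep M ((bst M)^[m + 1] c)).isNone) := by
    intro m c
    unfold bhn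
    rw [List.range_succ (n := m + 1), List.any_append]
    simp
  have h2 : ∀ p : ℕ × BC N, bhn M p.1 p.2 = Nat.rec ((bstep M p.2).isNone)
      (fun m b => b || (bstep M ((bst M)^[m + 1] p.2)).isNone) p.1 := by
    rintro ⟨m, c⟩
    induction m with
    | zero => simp [bhn]
    | succ m ih =>
      show bhn M (m + 1) c = _
      rw [h1]
      have ih' : bhn M m c = _ := ih
      rw [ih']
  refine Primrec.of_eq ?_ (fun p => (h2 p).symm)
  refine Primrec.nat_rec' Primrec.fst ((bhalt_prim M).comp Primrec.snd)
    (h := fun p (x : ℕ × Bool) => x.2 || (bstep M ((bst M)^[x.1 + 1] p.2)).isNone) ?_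
  refine Primrec.or.comp (Primrec.snd.comp Primrec.snd) ?_
  refine (bhalt_prim M).comp ?_
  exact Primrec.nat_iterate (Primrec.succ.comp (Primrec.fst.comp Primrec.snd))
    (Primrec.snd.comp Primrec.fst) ((bst_prim M).comp Primrec.snd)

end R913
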