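import Pool.Agent.Lib.R913.BMIdle

/-!
# Module BMAct: the active revolution

PROOFS.  `bitl_hb`: induction on `u` (the state `hb c` reads `bit b`, writes `bit c` and becomes `hb b`):
`(c :: u) = u' ++ [c']`.  `fin_hb`, `fin_hh`: the rest of the right half: reading `Rt.map bit` in the state `hb c` (`hh q s`)
and then `sh 17`: everything is written, two symbols `bit false`, `sh 0` are added (`bitl_hb`, and for `hh`: if `Rt = []`
directly the step at `sh 17`, else one step to `hb b` and then `fin_hb`).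
`first_left`: the left half in the state `hb false`: `false :: Lf.reverse = (Lf ++ [false]).reverse`, whose last entry is the
head `c` of `Lf ++ [false] = c :: L'`: the state is `hb c`, `L'.reverse` has been written.
`act_*`: the three moves and halting; combine `first_left`, one step at `hd q s`, and `fin_*` (for the move to the right: state
`pd s q'`; `Rt = b :: R'`: `hh q' b` and then `fin_hh`; `Rt = []`: the step at `sh 17`).
-/

set_option autoImplicit false

namespace R913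

open P913

namespace BMActAux

variable {N : ℕ} (M : BM N)

theorem st_hb (c b : Bool) (w : List (Sy N)) :
    QStep (bmQA M) (St.hb c, Sy.bit b :: w) (St.hb b, w ++ [Sy.bit c]) :=
  QStep.mk _ _ _ _ w [] rfl

theorem st_hbe (c : Bool) (w : List (Sy N)) :
    QStep (bmQA M) (St.hb c, Sy.sh 17 :: w) (St.idle, w ++ [Sy.bit c, Sy.bit false, Sy.sh 0]) :=
  QStep.mk _ _ _ _ w [Sy.bit c, Sy.bit false] rfl

theorem st_hh (q : Fin N) (s b : Bool) (w : List (Sy N)) :
    QStep (bmQA M) (St.hh q s, Sy.bit b :: w) (St.hb b, w ++ [Sy.hd q s]) :=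
  QStep.mk _ _ _ _ w [] rfl

theorem st_hhe (q : Fin N) (s : Bool) (w : List (Sy N)) :
    QStep (bmQA M) (St.hh q s, Sy.sh 17 :: w) (St.idle, w ++ [Sy.hd q s, Sy.bit false, Sy.sh 0]) :=
  QStep.mk _ _ _ _ w [Sy.hd q s, Sy.bit false] rfl

theorem st_pd (q : Fin N) (s b : Bool) (w : List (Sy N)) :
    QStep (bmQA M) (St.pd s q, Sy.bit b :: w) (St.hh q b, w ++ [Sy.bit s]) :=
  QStep.mk _ _ _ _ w [] rfl

theorem st_pde (q : Fin N) (s : Bool) (w : List (Sy N)) :
    QStep (bmQA M) (St.pd s q, Sy.sh 17 :: w)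
      (St.idle, w ++ [Sy.bit s, Sy.hd q false, Sy.sh 0]) :=
  QStep.mk _ _ _ _ w [Sy.bit s, Sy.hd q false] rfl

theorem st_wr {q q' : Fin N} {s b : Bool} (h : M q s = some (q', Act.wr b)) (c : Bool)
    (w : List (Sy N)) :
    QStep (bmQA M) (St.hb c, Sy.hd q s :: w) (St.hh q' b, w ++ [Sy.bit c]) := by
  refine QStep.mk _ _ _ _ w [] ?_
  show bmt M (St.hb c) (Sy.hd q s) = _
  simp only [bmt, h]

theorem st_mr {q q' : Fin N} {s : Bool} (h : M q s = some (q', Act.mr)) (c : Bool)
    (w : List (Sy N)) :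
    QStep (bmQA M) (St.hb c, Sy.hd q s :: w) (St.pd s q', w ++ [Sy.bit c]) := by
  refine QStep.mk _ _ _ _ w [] ?_
  show bmt M (St.hb c) (Sy.hd q s) = _
  simp only [bmt, h]

theorem st_ml {q q' : Fin N} {s : Bool} (h : M q s = some (q', Act.ml)) (c : Bool)
    (w : List (Sy N)) :
    QStep (bmQA M) (St.hb c, Sy.hd q s :: w) (St.hb s, w ++ [Sy.hd q' c]) := by
  refine QStep.mk _ _ _ _ w [] ?_
  show bmt M (St.hb c) (Sy.hd q s) = _
  simp only [bmt, h]

theorem exists_last (c : Bool) (u : List Bool) : ∃ (u' : List Bool) (c' : Bool),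
    c :: u = u' ++ [c'] := by
  rcases List.eq_nil_or_concat (c :: u) with h | ⟨u', c', h⟩
  · exact absurd h (by simp)
  · exact ⟨u', c', by simpa using h⟩

theorem exists_head (u : List Bool) : ∃ (c : Bool) (u' : List Bool), u ++ [false] = c :: u' := by
  cases u with
  | nil => exact ⟨false, [], rfl⟩
  | cons c u => exact ⟨c, u ++ [false], rfl⟩

end BMActAux

open BMActAux

theorem bitl_hb {N : ℕ} (M : BM N) (c c' : Bool) (u u' : List Bool) (v : List (Sy N)) (h : c :: u = u' ++ [c']) :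
    Relation.ReflTransGen (QStep (bmQA M)) (St.hb c, u.map Sy.bit ++ v) (St.hb c', v ++ u'.map Sy.bit) := by
  induction u generalizing c u' v with
  | nil =>
    cases u' with
    | nil =>
      simp only [List.nil_append, List.cons.injEq, and_true] at h
      subst h
      simpa using Relation.ReflTransGen.refl
    | cons a u' =>
      have := congrArg List.length h
      simp at this
  | cons b u ih =>
    cases u' with
    | nil =>
      have := congrArg List.length h
      simp at this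
    | cons a u' =>
      simp only [List.cons_append, List.cons.injEq] at h
      obtain ⟨rfl, h2⟩ := h
      have h3 := ih b u' (v ++ [Sy.bit c]) h2
      have h4 := st_hb M c b (u.map Sy.bit ++ v)
      rw [List.append_assoc] at h4
      have h5 := h3.head h4
      simpa using h5

theorem fin_hb {N : ℕ} (M : BM N) (c : Bool) (Rt : List Bool) (v : List (Sy N)) :
    Relation.TransGen (QStep (bmQA M)) (St.hb c, Rt.map Sy.bit ++ (Sy.sh 17 :: v))
      (St.idle, v ++ (Sy.bit c :: (Rt.map Sy.bit ++ [Sy.bit false, Sy.sh 0]))) := by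
  obtain ⟨u', c', h⟩ := exists_last c Rt
  have h1 := bitl_hb M c c' Rt u' (Sy.sh 17 :: v) h
  have h2 := st_hbe M c' (v ++ u'.map Sy.bit)
  have h3 : v ++ (Sy.bit c :: (Rt.map Sy.bit ++ [Sy.bit false, Sy.sh 0])) =
      v ++ u'.map Sy.bit ++ [Sy.bit c', Sy.bit false, Sy.sh 0] := by
    have h4 : (Sy.bit c : Sy N) :: (Rt.map Sy.bit ++ [Sy.bit false, Sy.sh 0]) =
        (c :: Rt).map Sy.bit ++ [Sy.bit false, Sy.sh 0] := rfl
    rw [h4, h]
    simp
  rw [h3]
  exact Relation.TransGen.tail' h1 h2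

theorem fin_hh {N : ℕ} (M : BM N) (q : Fin N) (s : Bool) (Rt : List Bool) (v : List (Sy N)) :
    Relation.TransGen (QStep (bmQA M)) (St.hh q s, Rt.map Sy.bit ++ (Sy.sh 17 :: v))
      (St.idle, v ++ (Sy.hd q s :: (Rt.map Sy.bit ++ [Sy.bit false, Sy.sh 0]))) := by
  cases Rt with
  | nil => exact Relation.TransGen.single (st_hhe M q s v)
  | cons b R1 =>
    have h1 := st_hh M q s b (R1.map Sy.bit ++ (Sy.sh 17 :: v))
    have h2 := fin_hb M b R1 (v ++ [Sy.hd q s])
    have h3 : R1.map Sy.bit ++ (Sy.sh 17 :: v) ++ [Sy.hd q s] =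
        R1.map Sy.bit ++ (Sy.sh 17 :: (v ++ [Sy.hd q s])) := by simp
    rw [h3] at h1
    have h4 := h2.head h1
    simpa using h4

/-- the left half: `c` is the bit next to the head (`false` if the list is empty) -/
theorem first_left {N : ℕ} (M : BM N) (Lf L' : List Bool) (c : Bool) (v : List (Sy N))
    (h : Lf ++ [false] = c :: L') :
    Relation.ReflTransGen (QStep (bmQA M)) (St.hb false, Lf.reverse.map Sy.bit ++ v)
      (St.hb c, v ++ L'.reverse.map Sy.bit) := by
  refine bitl_hb M false c Lf.reverse L'.reverse v ?_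
  have h1 := congrArg List.reverse h
  simpa using h1

theorem act_wr {N : ℕ} (M : BM N) (Lf Rt : List Bool) (q q' : Fin N) (s b : Bool)
    (h : M q s = some (q', Act.wr b)) :
    Relation.TransGen (QStep (bmQA M)) (St.hb false, bmw Lf q s Rt)
      (St.idle, (Lf ++ [false]).reverse.map Sy.bit ++
        (Sy.hd q' b :: ((Rt ++ [false]).map Sy.bit ++ [Sy.sh 0]))) := by
  obtain ⟨c, L', hL⟩ := exists_head Lf
  have h1 := first_left M Lf L' c (Sy.hd q s :: (Rt.map Sy.bit ++ [Sy.sh 17])) hL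
  have h2 := st_wr M h c ((Rt.map Sy.bit ++ [Sy.sh 17]) ++ L'.reverse.map Sy.bit)
  have h3 := fin_hh M q' b Rt (L'.reverse.map Sy.bit ++ [Sy.bit c])
  have e1 : (Rt.map Sy.bit : List (Sy N)) ++ [Sy.sh 17] ++ L'.reverse.map Sy.bit ++ [Sy.bit c] =
      Rt.map Sy.bit ++ (Sy.sh 17 :: (L'.reverse.map Sy.bit ++ [Sy.bit c])) := by simp
  rw [e1] at h2
  have h4 := Relation.TransGen.trans_right h1 (h3.head h2)
  have e2 : (Lf ++ [false]).reverse.map Sy.bit ++
      (Sy.hd q' b :: ((Rt ++ [false]).map Sy.bit ++ [Sy.sh 0])) =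
      L'.reverse.map Sy.bit ++ [Sy.bit c] ++
        (Sy.hd q' b :: (Rt.map Sy.bit ++ [Sy.bit false, Sy.sh 0])) := by
    rw [hL]
    simp
  rw [e2]
  exact h4

theorem act_ml {N : ℕ} (M : BM N) (Lf L' Rt : List Bool) (q q' : Fin N) (s c : Bool)
    (h : M q s = some (q', Act.ml)) (hL : Lf ++ [false] = c :: L') :
    Relation.TransGen (QStep (bmQA M)) (St.hb false, bmw Lf q s Rt)
      (St.idle, L'.reverse.map Sy.bit ++
        (Sy.hd q' c :: (((s :: Rt) ++ [false]).map Sy.bit ++ [Sy.sh 0]))) := by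
  have h1 := first_left M Lf L' c (Sy.hd q s :: (Rt.map Sy.bit ++ [Sy.sh 17])) hL
  have h2 := st_ml M h c ((Rt.map Sy.bit ++ [Sy.sh 17]) ++ L'.reverse.map Sy.bit)
  have h3 := fin_hb M s Rt (L'.reverse.map Sy.bit ++ [Sy.hd q' c])
  have e1 : (Rt.map Sy.bit : List (Sy N)) ++ [Sy.sh 17] ++ L'.reverse.map Sy.bit ++ [Sy.hd q' c] =
      Rt.map Sy.bit ++ (Sy.sh 17 :: (L'.reverse.map Sy.bit ++ [Sy.hd q' c])) := by simp
  rw [e1] at h2
  have h4 := Relation.TransGen.trans_right h1 (h3.head h2)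
  have e2 : L'.reverse.map Sy.bit ++
      (Sy.hd q' c :: (((s :: Rt) ++ [false]).map Sy.bit ++ [Sy.sh 0])) =
      L'.reverse.map Sy.bit ++ [Sy.hd q' c] ++
        (Sy.bit s :: (Rt.map Sy.bit ++ [Sy.bit false, Sy.sh 0])) := by
    simp
  rw [e2]
  exact h4

theorem act_mr {N : ℕ} (M : BM N) (Lf Rt R' : List Bool) (q q' : Fin N) (s c : Bool)
    (h : M q s = some (q', Act.mr)) (hR : Rt ++ [false] = c :: R') :
    Relation.TransGen (QStep (bmQA M)) (St.hb false, bmw Lf q s Rt)
      (St.idle, ((s :: Lf) ++ [false]).reverse.map Sy.bit ++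
        (Sy.hd q' c :: (R'.map Sy.bit ++ [Sy.sh 0]))) := by
  obtain ⟨c1, L1, hL⟩ := exists_head Lf
  have h1 := first_left M Lf L1 c1 (Sy.hd q s :: (Rt.map Sy.bit ++ [Sy.sh 17])) hL
  have h2 := st_mr M h c1 ((Rt.map Sy.bit ++ [Sy.sh 17]) ++ L1.reverse.map Sy.bit)
  have h12 := Relation.TransGen.tail' h1 h2
  have e0 : ((s :: Lf) ++ [false]).reverse = L1.reverse ++ [c1] ++ [s] := by
    rw [List.cons_append, hL]
    simp
  cases Rt with
  | nil =>
    simp only [List.nil_append, List.cons.injEq] at hR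
    obtain ⟨rfl, rfl⟩ := hR
    have h3 := st_pde M q' s (L1.reverse.map Sy.bit ++ [Sy.bit c1])
    have e1 : ([] : List Bool).map (Sy.bit (N := N)) ++ [Sy.sh 17] ++ L1.reverse.map Sy.bit ++
        [Sy.bit c1] = Sy.sh 17 :: (L1.reverse.map Sy.bit ++ [Sy.bit c1]) := by simp
    rw [e1] at h12
    have h4 := h12.tail h3
    have e2 : ((s :: Lf) ++ [false]).reverse.map Sy.bit ++
        (Sy.hd q' false :: (([] : List Bool).map Sy.bit ++ [Sy.sh 0])) =
        L1.reverse.map Sy.bit ++ [Sy.bit c1] ++ [Sy.bit s, Sy.hd q' false, Sy.sh 0] := by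
      rw [e0]
      simp
    rw [e2]
    exact h4
  | cons b R1 =>
    simp only [List.cons_append, List.cons.injEq] at hR
    obtain ⟨rfl, rfl⟩ := hR
    have h3 := st_pd M q' s b (R1.map Sy.bit ++ (Sy.sh 17 :: (L1.reverse.map Sy.bit ++
      [Sy.bit c1])))
    have e1 : (b :: R1).map (Sy.bit (N := N)) ++ [Sy.sh 17] ++ L1.reverse.map Sy.bit ++
        [Sy.bit c1] = Sy.bit b :: (R1.map Sy.bit ++ (Sy.sh 17 :: (L1.reverse.map Sy.bit ++
          [Sy.bit c1]))) := by simp
    rw [e1] at h12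
    have h4 := h12.tail h3
    have h5 := fin_hh M q' b R1 (L1.reverse.map Sy.bit ++ [Sy.bit c1] ++ [Sy.bit s])
    have e2 : (R1.map Sy.bit : List (Sy N)) ++ (Sy.sh 17 :: (L1.reverse.map Sy.bit ++ [Sy.bit c1])) ++
        [Sy.bit s] = R1.map Sy.bit ++ (Sy.sh 17 :: (L1.reverse.map Sy.bit ++ [Sy.bit c1] ++
          [Sy.bit s])) := by simp
    rw [e2] at h4
    have h6 := h4.trans h5
    have e3 : ((s :: Lf) ++ [false]).reverse.map Sy.bit ++
        (Sy.hd q' b :: ((R1 ++ [false]).map Sy.bit ++ [Sy.sh 0])) =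
        L1.reverse.map Sy.bit ++ [Sy.bit c1] ++ [Sy.bit s] ++
          (Sy.hd q' b :: (R1.map Sy.bit ++ [Sy.bit false, Sy.sh 0])) := by
      rw [e0]
      simp
    rw [e3]
    exact h6

/-- halting: the automaton comes to the symbol `hd q s` in a state `hb c` -/
theorem act_halt {N : ℕ} (M : BM N) (Lf Rt : List Bool) (q : Fin N) (s : Bool) (h : M q s = none) :
    ∃ (c : Bool) (v : List (Sy N)), v ≠ [] ∧
      Relation.ReflTransGen (QStep (bmQA M)) (St.hb false, bmw Lf q s Rt) (St.hb c, Sy.hd q s :: v) ∧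
      (bmQA M).t (St.hb c) (Sy.hd q s) = none := by
  obtain ⟨c, L', hL⟩ := exists_head Lf
  have h1 := first_left M Lf L' c (Sy.hd q s :: (Rt.map Sy.bit ++ [Sy.sh 17])) hL
  refine ⟨c, (Rt.map Sy.bit ++ [Sy.sh 17]) ++ L'.reverse.map Sy.bit, by simp, ?_, ?_⟩
  · rw [List.cons_append] at h1
    exact h1
  show bmt M (St.hb c) (Sy.hd q s) = none
  simp only [bmt, h]

end R913
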