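import Pool.Agent.Lib.R913.GSDef

/-!
# The queue automaton of a bit machine

The word of the configuration `(q, l, s, r)` of the bit machine is `reverse Lf, hd q s, Rt, sh 17`, where `Lf`, `Rt` are
lists of bits with the numbers `l`, `r`.  In the states `hb c`, `hh q s` the symbol `bit c`, `hd q s` has been read and is
not yet written; in the state `pd b q'` the bit `b` is not yet written and the head goes to the next cell in the
state `q'`.  The symbol `sh i` is the end marker; `i` counts the idle revolutions (state `idle`).
-/

set_option autoImplicit false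

namespace R913

open P913

/-- symbols -/
inductive Sy (N : ℕ) where
  | bit (b : Bool)
  | hd (q : Fin N) (s : Bool)
  | sh (i : Fin 18)
  deriving DecidableEq, Fintype

/-- states -/
inductive St (N : ℕ) where
  | hb (b : Bool)
  | hh (q : Fin N) (s : Bool)
  | pd (b : Bool) (q : Fin N)
  | idle
  deriving DecidableEq, Fintype

/-- transitions -/
def bmt {N : ℕ} (M : BM N) : St N → Sy N → Option (St N × List (Sy N) × Sy N)
  | .hb c, .bit b => some (.hb b, [], .bit c)
  | .hb c, .hd q s => match M q s with
    | none => none
    | some (q', Act.wr b) => some (.hh q' b, [], .bit c)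
    | some (q', Act.mr) => some (.pd s q', [], .bit c)
    | some (q', Act.ml) => some (.hb s, [], .hd q' c)
  | .hb c, .sh i => if i = 17 then some (.idle, [.bit c, .bit false], .sh 0) else none
  | .hh q s, .bit b => some (.hb b, [], .hd q s)
  | .hh _ _, .hd _ _ => none
  | .hh q s, .sh i => if i = 17 then some (.idle, [.hd q s, .bit false], .sh 0) else none
  | .pd b q', .bit b' => some (.hh q' b', [], .bit b)
  | .pd _ _, .hd _ _ => none
  | .pd b q', .sh i => if i = 17 then some (.idle, [.bit b, .hd q' false], .sh 0) else none
  | .idle, .bit b => some (.idle, [], .bit b)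
  | .idle, .hd q s => some (.idle, [], .hd q s)
  | .idle, .sh i => if i = 17 then none else if i = 16 then some (.hb false, [], .sh 17)
      else some (.idle, [], .sh (i + 1))

/-- weights -/
def bmG {N : ℕ} : Sy N → ℕ
  | .bit _ => 6
  | .hd _ _ => 6
  | .sh i => 7 + (i : ℕ)

/-- the queue automaton of a bit machine -/
def bmQA {N : ℕ} (M : BM N) : QA (St N) (Sy N) where
  t := bmt M
  G := bmG
  hG := by
    intro q a q' pre b h
    cases q <;> cases a <;> simp only [bmt] at h
    case hb.hd c q s =>
      rcases hM : M q s with _ | ⟨q1, _ | _ | _⟩ <;> rw [hM] at h <;> simp at h <;>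
        obtain ⟨_, rfl, rfl⟩ := h <;> simp [bmG]
    case idle.sh i =>
      split_ifs at h with h1 h2
      · simp at h
        obtain ⟨_, rfl, rfl⟩ := h
        subst h2
        simp [bmG]
      · simp at h
        obtain ⟨_, rfl, rfl⟩ := h
        have h3 : ((i + 1 : Fin 18) : ℕ) = (i : ℕ) + 1 := by
          revert h1 h2
          revert i
          decide
        simp only [bmG, h3, List.length_nil]
        refine ⟨by omega, by omega, by simp⟩
    all_goals first
      | (split_ifs at h with h1
         · simp at h
           obtain ⟨_, rfl, rfl⟩ := h
           subst h1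
           simp [bmG])
      | (simp at h
         first
           | (obtain ⟨_, rfl, rfl⟩ := h
              simp [bmG])
           | skip)

/-- the word of a configuration -/
def bmw {N : ℕ} (Lf : List Bool) (q : Fin N) (s : Bool) (Rt : List Bool) : List (Sy N) :=
  Lf.reverse.map Sy.bit ++ (Sy.hd q s :: (Rt.map Sy.bit ++ [Sy.sh 17]))

end R913
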