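import Pool.Agent.Lib.R913.BMDef

/-!
# Module BMIdle: idle revolutions

PROOFS.  `idle_word`: induction on `u`: the state `idle` copies `bit b` and `hd q s` (`QStep.mk` with `pre = []`).
`idle_round`: `idle_word` and the step at `sh i`.  `idle_all`: 17 times `idle_round`: `sh 0, sh 1, ..., sh 16`, and the last
one (`i = 16`) leads to `sh 17` and the state `hb false`.  (Induction on `i : ℕ` with `i ≤ 16`, or 17 explicit
applications of `idle_round 0`, `idle_round 1`, ...)
-/

set_option autoImplicit false

namespace R913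

open P913

/-- no end marker in the word -/
def NoSh {N : ℕ} (u : List (Sy N)) : Prop := ∀ a ∈ u, ∀ i, a ≠ Sy.sh i

theorem idle_word {N : ℕ} (M : BM N) (u v : List (Sy N)) (hu : NoSh u) :
    Relation.ReflTransGen (QStep (bmQA M)) (St.idle, u ++ v) (St.idle, v ++ u) := by
  induction u generalizing v with
  | nil =>
    rw [List.nil_append, List.append_nil]
  | cons a u ih =>
    have h1 : (bmQA M).t St.idle a = some (St.idle, [], a) := by
      cases a with
      | bit b => rfl
      | hd q s => rfl
      | sh i => exact absurd rfl (hu (Sy.sh i) List.mem_cons_self i)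
    have h2 : QStep (bmQA M) (St.idle, a :: (u ++ v)) (St.idle, (u ++ v) ++ ([] ++ [a])) :=
      QStep.mk St.idle St.idle a a (u ++ v) [] h1
    have h3 := ih (v ++ [a]) (fun b hb => hu b (List.mem_cons_of_mem _ hb))
    rw [List.nil_append, List.append_assoc] at h2
    rw [List.append_assoc, List.singleton_append] at h3
    exact Relation.ReflTransGen.head h2 h3

theorem idle_round {N : ℕ} (M : BM N) (u : List (Sy N)) (hu : NoSh u) (i : Fin 18) (hi : (i : ℕ) < 16) :
    Relation.ReflTransGen (QStep (bmQA M)) (St.idle, u ++ [Sy.sh i]) (St.idle, u ++ [Sy.sh (i + 1)]) := by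
  have h1 : (bmQA M).t St.idle (Sy.sh i) = some (St.idle, [], Sy.sh (i + 1)) := by
    have h2 : i ≠ 17 := by
      rintro rfl
      exact absurd hi (by decide)
    have h3 : i ≠ 16 := by
      rintro rfl
      exact absurd hi (by decide)
    show bmt M St.idle (Sy.sh i) = _
    simp only [bmt]
    rw [if_neg h2, if_neg h3]
  exact (idle_word M u [Sy.sh i] hu).tail (QStep.mk St.idle St.idle (Sy.sh i) (Sy.sh (i + 1)) u [] h1)

theorem idle_last {N : ℕ} (M : BM N) (u : List (Sy N)) (hu : NoSh u) :
    Relation.ReflTransGen (QStep (bmQA M)) (St.idle, u ++ [Sy.sh 16]) (St.hb false, u ++ [Sy.sh 17]) := by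
  have h1 : (bmQA M).t St.idle (Sy.sh 16) = some (St.hb false, [], Sy.sh 17) := by
    show bmt M St.idle (Sy.sh 16) = _
    simp only [bmt]
    rw [if_neg (by decide), if_pos trivial]
  exact (idle_word M u [Sy.sh 16] hu).tail (QStep.mk St.idle (St.hb false) (Sy.sh 16) (Sy.sh 17) u [] h1)

theorem idle_all {N : ℕ} (M : BM N) (u : List (Sy N)) (hu : NoSh u) :
    Relation.ReflTransGen (QStep (bmQA M)) (St.idle, u ++ [Sy.sh 0]) (St.hb false, u ++ [Sy.sh 17]) := by
  have key : ∀ j : ℕ, (hj : j ≤ 16) → Relation.ReflTransGen (QStep (bmQA M))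
      (St.idle, u ++ [Sy.sh 0]) (St.idle, u ++ [Sy.sh ⟨j, by omega⟩]) := by
    intro j
    induction j with
    | zero => intro _; exact Relation.ReflTransGen.refl
    | succ j ih =>
      intro hj
      have h1 := ih (by omega)
      have h2 := idle_round M u hu ⟨j, by omega⟩ (show j < 16 by omega)
      have h3 : (⟨j, by omega⟩ : Fin 18) + 1 = ⟨j + 1, by omega⟩ := by
        apply Fin.ext
        rw [Fin.val_add]
        show (j + 1) % 18 = j + 1
        omega
      rw [h3] at h2
      exact h1.trans h2
  exact (key 16 le_rfl).trans (idle_last M u hu)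

end R913
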