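import Pool.Agent.Lib.R913.QSim

/-!
# Module QLift: runs of the queue automaton in the ring

PROOFS.  `QStep` does not make the word shorter (`pre ++ [b]` has length `≥ 1`), so all words of a run have length `≥ 2`.
`lift_trans`: induction on the transitive closure (`Relation.TransGen.head_induction_on` or `Relation.TransGen.rec`) with
`relQ_step`; `GSp` is transitive.  `lift_refl`: `Relation.ReflTransGen` is `=` or `TransGen`
(`Relation.reflTransGen_iff_eq_or_transGen`).
-/

set_option autoImplicit false

namespace R913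

open P913

section

variable {St Sy : Type} {n A : ℕ} (e1 : St ≃ Fin n) (e2 : Sy ≃ Fin A) (Q : QA St Sy)

theorem QStep_len (c c' : St × List Sy) (h : QStep Q c c') : c.2.length ≤ c'.2.length := by
  cases h with
  | mk q q' a b w pre ht =>
    simp only [List.length_cons, List.length_append, List.length_nil]
    omega

theorem QLiftAux.trans_len (c c' : St × List Sy) (h : Relation.TransGen (QStep Q) c c') :
    c.2.length ≤ c'.2.length := by
  induction h with
  | single h1 => exact QStep_len Q _ _ h1
  | tail _ h2 ih => exact ih.trans (QStep_len Q _ _ h2)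

theorem lift_trans (c c' : St × List Sy) (s : ℕ × List Bool) (h : RelQ e1 e2 Q c s) (hc : 2 ≤ c.2.length)
    (hs : Relation.TransGen (QStep Q) c c') :
    ∃ s' : ℕ × List Bool, GSp (gsQ e1 e2 Q) s s' ∧ RelQ e1 e2 Q c' s' ∧ s.2.length < s'.2.length := by
  induction hs with
  | single h1 => exact relQ_step e1 e2 Q _ _ s h hc h1
  | tail h1 h2 ih =>
    obtain ⟨s1, g1, r1, l1⟩ := ih
    obtain ⟨s2, g2, r2, l2⟩ := relQ_step e1 e2 Q _ _ s1 r1 (hc.trans (QLiftAux.trans_len Q _ _ h1)) h2
    exact ⟨s2, g1.trans g2, r2, l1.trans l2⟩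

theorem lift_refl (c c' : St × List Sy) (s : ℕ × List Bool) (h : RelQ e1 e2 Q c s) (hc : 2 ≤ c.2.length)
    (hs : Relation.ReflTransGen (QStep Q) c c') :
    ∃ s' : ℕ × List Bool, GSs (gsQ e1 e2 Q) s s' ∧ RelQ e1 e2 Q c' s' ∧ s.2.length ≤ s'.2.length ∧
      c.2.length ≤ c'.2.length := by
  rcases Relation.reflTransGen_iff_eq_or_transGen.1 hs with heq | ht
  · subst heq
    exact ⟨s, Relation.ReflTransGen.refl, h, le_refl _, le_refl _⟩
  · obtain ⟨s', g, r, l⟩ := lift_trans e1 e2 Q c c' s h hc ht
    exact ⟨s', g.to_reflTransGen, r, l.le, QLiftAux.trans_len Q _ _ ht⟩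

end

end R913
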