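import Pool.Agent.Lib.R913.BMAct
import Pool.Agent.Lib.R913.QLift

/-!
# Module BMSim: bit machines in the ring

`RelB e1 e2 M c s`: the ring configuration `s` represents the configuration `c` of the bit machine `M`.

PROOFS.  `num (false appended at the end) = num` : `num_append_false` (`num (l ++ [false]) = num l`, induction), and for
`Lf ++ [false] = c :: L'`: `num L' = (num Lf).div2`, `c = (num Lf).bodd` (`num (c :: L') = 2 * num L' + c.toNat`;
`Nat.bodd`, `Nat.div2`), `num (s :: Lf) = 2 * num Lf + s.toNat`.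
`relB_step`: cases of `M q s`: `act_wr`, `act_mr`, `act_ml` followed by `idle_all` (no `sh` in the words), which is a
`TransGen` of `QStep` from `(hb false, bmw ..)` to `(hb false, bmw ..)`; then `lift_trans` (`bmw` has length `≥ 2`).
`relB_halt`: `act_halt`, `lift_refl`, `relQ_halt` (the word is `hd q s :: v`, `v ≠ []`).
-/

set_option autoImplicit false

namespace R913

open P913

section

variable {N n A : ℕ} (e1 : St N ≃ Fin n) (e2 : Sy N ≃ Fin A) (M : BM N)

/-- the ring configuration `s` represents the configuration `c` of the bit machine -/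
def RelB (c : BC N) (s : ℕ × List Bool) : Prop :=
  ∃ Lf Rt : List Bool, num Lf = c.2.1 ∧ num Rt = c.2.2.2 ∧
    RelQ e1 e2 (bmQA M) (St.hb false, bmw Lf c.1 c.2.2.1 Rt) s

theorem num_append_false (l : List Bool) : num (l ++ [false]) = num l := by
  induction l with
  | nil => rfl
  | cons b l ih =>
    have h1 : num ((b :: l) ++ [false]) = 2 * num (l ++ [false]) + b.toNat := rfl
    have h2 : num (b :: l) = 2 * num l + b.toNat := rfl
    rw [h1, h2, ih]

theorem num_split (l l' : List Bool) (c : Bool) (h : l ++ [false] = c :: l') :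
    num l' = (num l).div2 ∧ c = (num l).bodd := by
  have h1 : num l = Nat.bit c (num l') := by
    rw [← num_append_false l, h]
    have h2 : num (c :: l') = 2 * num l' + c.toNat := rfl
    rw [h2, Nat.bit_val]
  rw [h1]
  exact ⟨(Nat.div2_bit _ _).symm, (Nat.bodd_bit _ _).symm⟩

namespace BMSimAux

theorem ex_split (l : List Bool) : ∃ (c : Bool) (l' : List Bool), l ++ [false] = c :: l' := by
  cases l with
  | nil => exact ⟨false, [], rfl⟩
  | cons b l => exact ⟨b, l ++ [false], rfl⟩

theorem noSh {N : ℕ} (u v : List Bool) (q : Fin N) (s : Bool) :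
    NoSh (u.map Sy.bit ++ (Sy.hd q s :: v.map Sy.bit)) := by
  intro a ha i hi
  subst hi
  simp at ha

theorem len_bmw {N : ℕ} (Lf Rt : List Bool) (q : Fin N) (s : Bool) : 2 ≤ (bmw Lf q s Rt).length := by
  simp only [bmw, List.length_append, List.length_cons, List.length_nil]
  omega

theorem to_bmw {N : ℕ} (M : BM N) (Lf Rt u v : List Bool) (q q' : Fin N) (s s' : Bool)
    (h : Relation.TransGen (QStep (bmQA M)) (St.hb false, bmw Lf q s Rt)
      (St.idle, u.reverse.map Sy.bit ++ (Sy.hd q' s' :: (v.map Sy.bit ++ [Sy.sh 0])))) :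
    Relation.TransGen (QStep (bmQA M)) (St.hb false, bmw Lf q s Rt) (St.hb false, bmw u q' s' v) := by
  have h1 := idle_all M (u.reverse.map Sy.bit ++ (Sy.hd q' s' :: v.map Sy.bit)) (noSh _ _ _ _)
  rw [List.append_assoc, List.cons_append, List.append_assoc, List.cons_append] at h1
  exact Relation.TransGen.trans_left h h1

end BMSimAux

open BMSimAux

theorem relB_step (c c' : BC N) (s : ℕ × List Bool) (h : RelB e1 e2 M c s) (hs : bstep M c = some c') :
    ∃ s' : ℕ × List Bool, GSp (gsQ e1 e2 (bmQA M)) s s' ∧ RelB e1 e2 M c' s' ∧ s.2.length < s'.2.length := by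
  obtain ⟨q, l, b, r⟩ := c
  obtain ⟨Lf, Rt, hL, hR, hrel⟩ := h
  simp only at hL hR hrel
  have key : ∀ (u v : List Bool) (q' : Fin N) (b' : Bool), c' = (q', num u, b', num v) →
      Relation.TransGen (QStep (bmQA M)) (St.hb false, bmw Lf q b Rt)
      (St.idle, u.reverse.map Sy.bit ++ (Sy.hd q' b' :: (v.map Sy.bit ++ [Sy.sh 0]))) →
      ∃ s' : ℕ × List Bool, GSp (gsQ e1 e2 (bmQA M)) s s' ∧ RelB e1 e2 M c' s' ∧
        s.2.length < s'.2.length := by
    intro u v q' b' hc' hrun
    obtain ⟨s', h1, h2, h3⟩ := lift_trans e1 e2 (bmQA M) _ _ s hrel (len_bmw _ _ _ _)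
      (to_bmw M Lf Rt u v q q' b b' hrun)
    refine ⟨s', h1, ⟨u, v, ?_, ?_, ?_⟩, h3⟩
    · rw [hc']
    · rw [hc']
    · rw [hc']
      exact h2
  unfold bstep at hs
  simp only at hs
  rcases hM : M q b with _ | ⟨q', act⟩
  · rw [hM] at hs
    simp at hs
  · rw [hM] at hs
    cases act with
    | wr b' =>
      simp only [Option.some.injEq] at hs
      refine key (Lf ++ [false]) (Rt ++ [false]) q' b' ?_ (act_wr M Lf Rt q q' b b' hM)
      rw [num_append_false, num_append_false, hL, hR, ← hs]
    | mr =>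
      simp only [Option.some.injEq] at hs
      obtain ⟨c, R', hR'⟩ := ex_split Rt
      obtain ⟨h1, h2⟩ := num_split Rt R' c hR'
      refine key ((b :: Lf) ++ [false]) R' q' c ?_ (act_mr M Lf Rt R' q q' b c hM hR')
      have h3 : num (b :: Lf) = 2 * num Lf + b.toNat := rfl
      rw [num_append_false, h3, hL, h1, h2, hR, ← hs]
    | ml =>
      simp only [Option.some.injEq] at hs
      obtain ⟨c, L', hL'⟩ := ex_split Lf
      obtain ⟨h1, h2⟩ := num_split Lf L' c hL'
      refine key L' ((b :: Rt) ++ [false]) q' c ?_ (act_ml M Lf L' Rt q q' b c hM hL')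
      have h3 : num (b :: Rt) = 2 * num Rt + b.toNat := rfl
      rw [num_append_false, h3, hR, h1, h2, hL, ← hs]

theorem relB_halt (c : BC N) (s : ℕ × List Bool) (h : RelB e1 e2 M c s) (hs : bstep M c = none) :
    ∃ (r : ℕ) (t' : List Bool), GSs (gsQ e1 e2 (bmQA M)) s (r, true :: t') ∧
      gsQ e1 e2 (bmQA M) (r + 1) = none ∧ s.2.length ≤ t'.length + 1 := by
  obtain ⟨q, l, b, r⟩ := c
  obtain ⟨Lf, Rt, hL, hR, hrel⟩ := h
  simp only at hL hR hrel
  have hM : M q b = none := by
    unfold bstep at hs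
    simp only at hs
    rcases hM : M q b with _ | ⟨q', act⟩
    · rfl
    · rw [hM] at hs
      cases act <;> simp at hs
  obtain ⟨c, v, hv, hrun, hnone⟩ := act_halt M Lf Rt q b hM
  obtain ⟨s', h1, h2, h3, -⟩ := lift_refl e1 e2 (bmQA M) _ _ s hrel (len_bmw _ _ _ _) hrun
  obtain ⟨r', t', h4, h5, h6⟩ := relQ_halt e1 e2 (bmQA M) (St.hb c) (Sy.hd q b) v hv hnone s' h2
  exact ⟨r', t', Relation.ReflTransGen.trans h1 h4, h5, h3.trans h6⟩

end

end R913
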