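import Pool.Agent.Lib.P913.URun
import Pool.Agent.Lib.P913.MFin

/-!
# Group systems, queue automata, and the interface for the machines

A group system is a periodic program `gs : ℕ → Option (List Bool)`; a configuration is `(r, t)`, `t` the data.
`z m` is the word of `m` zeros.
-/

set_option autoImplicit false

namespace R913

open P913

/-- `m` zeros -/
abbrev z (m : ℕ) : List Bool := List.replicate m false

/-- the cells which are appended when the bits of `D` are pushed: `0 ↦ 0`, `1 ↦ 1 0` -/
def ec (D : List Bool) : List Bool := D.flatMap fun b => if b then [true, false] else [false]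

/-- one step of the group system `gs` -/
inductive GS (gs : ℕ → Option (List Bool)) : ℕ × List Bool → ℕ × List Bool → Prop
  | zero (r : ℕ) (t : List Bool) : GS gs (r, false :: t) (r + 1, t ++ [false])
  | one (r : ℕ) (t D : List Bool) (h : gs (r + 1) = some D) :
      GS gs (r, true :: (z (D.length + 1) ++ t)) (r + 1, t ++ false :: (ec D ++ [false]))

/-- finitely many steps of the group system -/
abbrev GSs (gs : ℕ → Option (List Bool)) : ℕ × List Bool → ℕ × List Bool → Prop :=
  Relation.ReflTransGen (GS gs)

/-- at least one step of the group system -/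
abbrev GSp (gs : ℕ → Option (List Bool)) : ℕ × List Bool → ℕ × List Bool → Prop :=
  Relation.TransGen (GS gs)

/-- the machine `U` simulates all group systems: `en c t` is the input word for the initial data `t` (the number `c`
is stored and can be read from the final tape by `dec`), `C (r, t)` is the configuration of `U` for `(r, t)`; the
final tape is at least as long as the data -/
def GSim {k n : ℕ} [NeZero k] [NeZero n] (U : TM k n) : Prop :=
  ∀ (β : ℕ) (gs : ℕ → Option (List Bool)), 0 < β → (∀ r, gs (r + β) = gs r) →
    ∃ (en : ℕ → List Bool → List (Fin n)) (dec : List ℕ × List ℕ → ℕ),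
      Computable₂ en ∧ Computable dec ∧
      ∀ (c : ℕ) (t : List Bool), ∃ C : ℕ × List Bool → Cfg k n,
        Rn U (init (en c t)) (C (0, t)) ∧
        (∀ s s' : ℕ × List Bool, GS gs s s' → Rp U (C s) (C s')) ∧
        (∀ s : ℕ × List Bool, (C s).st ≠ none) ∧
        ∀ (r : ℕ) (t' : List Bool), gs (r + 1) = none →
          ∃ (T : ℤ → Fin n) (w : List ℕ × List ℕ),
            (∃ j : ℕ, ((step U)^[j] (C (r, true :: t'))).st = none ∧
              ((step U)^[j] (C (r, true :: t'))).tape = T) ∧
            IsCode w T ∧ dec w = c ∧ t'.length ≤ w.2.length

/-- A queue automaton with states `St` and symbols `Sy`: in the state `q` with the front symbol `a`, where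
`t q a = some (q', pre, b)`, the symbol `a` is deleted, the word `pre ++ [b]` is appended, and the new state is
`q'`.  `G` are weights: every symbol in `pre` costs nine units of the weight of the symbol `a`. -/
structure QA (St Sy : Type) where
  t : St → Sy → Option (St × List Sy × Sy)
  G : Sy → ℕ
  hG : ∀ q a q' pre b, t q a = some (q', pre, b) →
    6 + 9 * pre.length ≤ G a ∧ G b + 9 * pre.length ≤ G a + 1 ∧ ∀ x ∈ pre, G x ≤ 6

/-- one step of a queue automaton -/
inductive QStep {St Sy : Type} (Q : QA St Sy) : St × List Sy → St × List Sy → Prop
  | mk (q q' : St) (a b : Sy) (w pre : List Sy) (h : Q.t q a = some (q', pre, b)) :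
      QStep Q (q, a :: w) (q', w ++ (pre ++ [b]))

end R913
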