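import Pool.Agent.Lib.R913.QDef

/-!
# Module GScan: the group system reads zeros, a header word, a symbol

PROOFS.  `scan_zero`: induction on `m` (`GS.zero`): `(r, false :: (z m ++ t))` goes to
`(r + 1, (z m ++ t) ++ [false])`, then the induction hypothesis with `t ++ [false]`; `z m` commutes with `[false]`
(`List.replicate_succ`, `List.replicate_succ'`).
`scan_one`: induction on `m`: `(r, true :: false :: t)` goes to `(r + 1, t ++ [false, false])` by `GS.one` with `D = []`
(`z (0 + 1) = [false]`, `ec [] = []`).
`scan_Wd`: `scan_one` with `m = ww n A`, then `scan_zero` with `ww n A + 1`; `bb n A = 2 * ww n A + 1`.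
`scan_H`: two times `scan_Wd` (the second one at `r + bb n A`, by the periodicity), then `scan_zero`.
-/

set_option autoImplicit false

namespace R913

open P913

theorem scan_zero (gs : ℕ → Option (List Bool)) (m r : ℕ) (t : List Bool) :
    GSs gs (r, z m ++ t) (r + m, t ++ z m) := by
  induction m generalizing r t with
  | zero =>
    simp only [z, List.replicate_zero, List.nil_append, List.append_nil, Nat.add_zero]
    exact Relation.ReflTransGen.refl
  | succ m ih =>
    have h1 : GS gs (r, z (m + 1) ++ t) (r + 1, z m ++ (t ++ [false])) := by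
      have h2 := GS.zero (gs := gs) r (z m ++ t)
      rw [List.append_assoc] at h2
      exact h2
    have h3 := ih (r + 1) (t ++ [false])
    have h4 : t ++ [false] ++ z m = t ++ z (m + 1) := by
      rw [List.append_assoc]
      congr 1
    have h5 : r + 1 + m = r + (m + 1) := by omega
    rw [h4, h5] at h3
    exact Relation.ReflTransGen.head h1 h3

theorem scan_one (gs : ℕ → Option (List Bool)) (m r : ℕ) (t : List Bool)
    (h : ∀ i, 1 ≤ i → i ≤ m → gs (r + i) = some []) :
    GSs gs (r, (List.replicate m [true, false]).flatten ++ t) (r + m, t ++ z (2 * m)) := by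
  induction m generalizing r t with
  | zero =>
    simp only [z, List.replicate_zero, List.flatten_nil, List.nil_append, List.append_nil,
      Nat.mul_zero, Nat.add_zero]
    exact Relation.ReflTransGen.refl
  | succ m ih =>
    have h1 : GS gs (r, (List.replicate (m + 1) [true, false]).flatten ++ t)
        (r + 1, (List.replicate m [true, false]).flatten ++ (t ++ [false, false])) := by
      have h2 := GS.one (gs := gs) r ((List.replicate m [true, false]).flatten ++ t) []
        (h 1 le_rfl (by omega))
      rw [List.append_assoc] at h2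
      exact h2
    have h3 := ih (r + 1) (t ++ [false, false]) (fun i hi1 hi2 => by
      rw [Nat.add_assoc, Nat.add_comm 1 i]
      exact h (i + 1) (by omega) (by omega))
    have h4 : t ++ [false, false] ++ z (2 * m) = t ++ z (2 * (m + 1)) := by
      rw [List.append_assoc]
      congr 1
    have h5 : r + 1 + m = r + (m + 1) := by omega
    rw [h4, h5] at h3
    exact Relation.ReflTransGen.head h1 h3

theorem scan_Wd (gs : ℕ → Option (List Bool)) (n A r : ℕ) (t : List Bool)
    (h : ∀ i, 1 ≤ i → i ≤ ww n A → gs (r + i) = some []) :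
    GSs gs (r, Wd n A ++ t) (r + bb n A, t ++ z (3 * ww n A + 1)) := by
  have h1 := scan_one gs (ww n A) r (z (ww n A + 1) ++ t) h
  rw [List.append_assoc] at h1
  have h2 := scan_zero gs (ww n A + 1) (r + ww n A) (t ++ z (2 * ww n A))
  have h3 : t ++ z (2 * ww n A) ++ z (ww n A + 1) = t ++ z (3 * ww n A + 1) := by
    rw [List.append_assoc]
    congr 1
    rw [z, z, ← List.replicate_add]
    congr 1
    omega
  have h4 : r + ww n A + (ww n A + 1) = r + bb n A := by
    unfold bb
    omega
  rw [h3, h4] at h2
  have h5 : Wd n A ++ t = (List.replicate (ww n A) [true, false]).flatten ++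
      (z (ww n A + 1) ++ t) := by
    unfold Wd
    rw [List.append_assoc]
  rw [h5]
  exact h1.trans h2

theorem scan_H (gs : ℕ → Option (List Bool)) {n A : ℕ} {Sy : Type} (e2 : Sy ≃ Fin A)
    (hp : ∀ r, gs (r + bb n A) = gs r) (r : ℕ) (a : Sy) (t : List Bool)
    (h : ∀ i, 1 ≤ i → i ≤ ww n A → gs (r + i) = some []) :
    GSs gs (r, H n e2 a ++ t)
      (r + 2 * bb n A + (bb n A - zc n e2 a),
        true :: (t ++ z (6 * ww n A + 2 + (bb n A - zc n e2 a)))) := by
  have h1 := scan_Wd gs n A r (Wd n A ++ (z (bb n A - zc n e2 a) ++ (true :: t))) h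
  have h2 := scan_Wd gs n A (r + bb n A)
    (z (bb n A - zc n e2 a) ++ (true :: t) ++ z (3 * ww n A + 1)) (fun i hi1 hi2 => by
      rw [Nat.add_right_comm, hp]
      exact h i hi1 hi2)
  have h3 := scan_zero gs (bb n A - zc n e2 a) (r + bb n A + bb n A)
    (true :: t ++ z (3 * ww n A + 1) ++ z (3 * ww n A + 1))
  have e1 : H n e2 a ++ t = Wd n A ++ (Wd n A ++ (z (bb n A - zc n e2 a) ++ (true :: t))) := by
    unfold H
    simp only [List.append_assoc, List.singleton_append]
  have e2' : Wd n A ++ (z (bb n A - zc n e2 a) ++ (true :: t)) ++ z (3 * ww n A + 1) =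
      Wd n A ++ (z (bb n A - zc n e2 a) ++ (true :: t) ++ z (3 * ww n A + 1)) :=
    List.append_assoc _ _ _
  have e3 : z (bb n A - zc n e2 a) ++ (true :: t) ++ z (3 * ww n A + 1) ++ z (3 * ww n A + 1) =
      z (bb n A - zc n e2 a) ++ (true :: t ++ z (3 * ww n A + 1) ++ z (3 * ww n A + 1)) := by
    simp only [List.append_assoc]
  have e4 : true :: t ++ z (3 * ww n A + 1) ++ z (3 * ww n A + 1) ++ z (bb n A - zc n e2 a) =
      true :: (t ++ z (6 * ww n A + 2 + (bb n A - zc n e2 a))) := by
    simp only [List.cons_append, List.append_assoc, z, List.replicate_append_replicate]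
    congr 3
    omega
  have e5 : r + bb n A + bb n A + (bb n A - zc n e2 a) =
      r + 2 * bb n A + (bb n A - zc n e2 a) := by omega
  rw [e4, e5] at h3
  rw [e3] at h2
  rw [e2'] at h1
  rw [e1]
  exact (h1.trans h2).trans h3

end R913
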