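import Pool.Agent.Lib.R913.GSDef

/-!
# The program of a queue automaton

`n` states, `A` symbols, numbered by `e1`, `e2`.  `ww n A = n A + n - 1`, `bb n A = 2 (n A + n - 1) + 1` (the length of the
program in groups, one block), `zc e2 a = n (A - number of a)`.
The symbol `a` is written as `H a`: two words `Wd = (1 0)^w 0^(w + 1)` (header, garbage ones, read and erased by the
classes `≥ n A`), then `bb - zc a` zeros and a one.  Between two symbols there are `g * bb + zc a` zeros.
-/

set_option autoImplicit false

namespace R913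

open P913

section

/-- the number of ones in a header word -/
def ww (n A : ℕ) : ℕ := n * A + n - 1

/-- one block: the number of classes -/
def bb (n A : ℕ) : ℕ := 2 * ww n A + 1

/-- header word (cells) -/
def Wd (n A : ℕ) : List Bool := (List.replicate (ww n A) [true, false]).flatten ++ z (ww n A + 1)

variable {St Sy : Type} {n A : ℕ} (e1 : St ≃ Fin n) (e2 : Sy ≃ Fin A)

/-- the residue of the gap behind the symbol `a` -/
def zc (n : ℕ) {A : ℕ} {Sy : Type} (e2 : Sy ≃ Fin A) (a : Sy) : ℕ := n * (A - (e2 a : ℕ))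

/-- the cells of the symbol `a` -/
def H (n : ℕ) {A : ℕ} {Sy : Type} (e2 : Sy ≃ Fin A) (a : Sy) : List Bool :=
  Wd n A ++ (Wd n A ++ (z (bb n A - zc n e2 a) ++ [true]))

/-- the bits which are pushed in order to write the symbol `a` -/
def inn (n : ℕ) {A : ℕ} {Sy : Type} (e2 : Sy ≃ Fin A) (a : Sy) : List Bool :=
  List.replicate (ww n A) true ++ z (ww n A + 1) ++ (List.replicate (ww n A) true ++ z (ww n A + 1)) ++
    z (bb n A - zc n e2 a) ++ [true]

/-- the bits which are pushed when the last one of the symbol `a` is read in the state `q` -/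
def DD (q : St) (a : Sy) (q' : St) (pre : List Sy) (b : Sy) : List Bool :=
  z (zc n e2 a + 1) ++ ((pre.flatMap fun x => inn n e2 x ++ z (6 * bb n A + zc n e2 x - 1)) ++ (inn n e2 b ++
    z (2 * bb n A + e1 q + zc n e2 b - (2 + zc n e2 a + e1 q'))))

/-- the group of the transition of the queue automaton for state `q` and symbol `a` -/
def grp (Q : QA St Sy) (q : St) (a : Sy) : Option (List Bool) :=
  match Q.t q a with
  | none => none
  | some (q', pre, b) => some (DD e1 e2 q a q' pre b)

/-- the program: the classes `r mod bb n A`; classes `≥ n A` are garbage classes, the class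
`i + n j` belongs to the state number `i` and the symbol number `j` -/
def gsQ (Q : QA St Sy) (r : ℕ) : Option (List Bool) :=
  if h : r % bb n A < n * A then
    grp e1 e2 Q (e1.symm ⟨r % bb n A % n, Nat.mod_lt _ (Nat.pos_of_ne_zero fun h0 => by simp [h0] at h)⟩)
      (e2.symm ⟨r % bb n A / n, Nat.div_lt_of_lt_mul h⟩)
  else some []

/-- a list of symbols with their gaps (in blocks) -/
def body (n : ℕ) {A : ℕ} {Sy : Type} (e2 : Sy ≃ Fin A) (l : List (Sy × ℕ)) : List Bool :=
  l.flatMap fun p => H n e2 p.1 ++ z (p.2 * bb n A + zc n e2 p.1)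

/-- the ring configuration `(r, t)` represents the configuration `(q, w)` of the queue automaton -/
def RelQ (Q : QA St Sy) (c : St × List Sy) (s : ℕ × List Bool) : Prop :=
  ∃ (l : List (Sy × ℕ)) (a : Sy) (g x y : ℕ), c.2 = l.map Prod.fst ++ [a] ∧
    s.2 = z x ++ (body n e2 l ++ (H n e2 a ++ z y)) ∧ (∀ p ∈ l, Q.G p.1 ≤ p.2) ∧ Q.G a ≤ g ∧
    y + x + 1 + 4 * bb n A = g * bb n A + zc n e2 a ∧ (s.1 + 1 + x) % bb n A = (n * A + e1 c.1) % bb n A

end

end R913
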