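import Pool.Agent.Lib.R913.QNum

/-!
# Module QEc: the cells which are written

PROOFS.  `ec_append`, `ec_z`, `ec_ones` (induction).  `ec_inn`: by these (`ec [true] = [true, false]`).
`ec_DD`: `ec` of the word `inn x ++ z (6 bb + zc x - 1)` is `H x ++ z (6 bb + zc x)` (`bb` is positive, so
`6 bb + zc x - 1 + 1 = 6 bb + zc x`), induction on `pre`; the last part is
`ec (inn b ++ z c) ++ [false] = H b ++ z (c + 2)`.
-/

set_option autoImplicit false

namespace R913

open P913

section

theorem ec_append (u v : List Bool) : ec (u ++ v) = ec u ++ ec v := by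
  simp [ec, List.flatMap_append]

theorem ec_z (m : ℕ) : ec (z m) = z m := by
  induction m with
  | zero => rfl
  | succ m ih =>
    have h1 : z (m + 1) = [false] ++ z m := rfl
    rw [h1, ec_append, ih]
    rfl

theorem ec_ones (m : ℕ) : ec (List.replicate m true) = (List.replicate m [true, false]).flatten := by
  induction m with
  | zero => rfl
  | succ m ih =>
    have h1 : List.replicate (m + 1) true = [true] ++ List.replicate m true := rfl
    rw [h1, ec_append, ih]
    rfl

namespace QEcAux

theorem z_add (a b : ℕ) : z a ++ z b = z (a + b) := by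
  simp [z]

theorem ec_length (D : List Bool) : (ec D).length = D.length + D.count true := by
  induction D with
  | nil => rfl
  | cons b D ih =>
    have h1 : ec (b :: D) = ec [b] ++ ec D := ec_append [b] D
    rw [h1, List.length_append, ih]
    cases b
    · simp [ec]
      omega
    · simp [ec]
      omega

end QEcAux

open QEcAux

variable {St Sy : Type} {n A : ℕ} (e1 : St ≃ Fin n) (e2 : Sy ≃ Fin A)

theorem ec_inn (a : Sy) : ec (inn n e2 a) = H n e2 a ++ [false] := by
  have h1 : ec [true] = [true, false] := rfl
  simp only [inn, H, Wd, ec_append, ec_z, ec_ones, h1, List.append_assoc, List.cons_append,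
    List.nil_append]

/-- the cells written by the word `DD` and one more zero -/
theorem ec_DD (q q' : St) (a b : Sy) (pre : List Sy) :
    ec (DD e1 e2 q a q' pre b) ++ [false] =
      z (zc n e2 a + 1) ++ ((body n e2 (pre.map fun x => (x, 6))) ++ (H n e2 b ++
        z (2 * bb n A + e1 q + zc n e2 b - (2 + zc n e2 a + e1 q') + 2))) := by
  have hbb : 1 ≤ bb n A := by
    unfold bb
    omega
  have hpre : ∀ l : List Sy, ec (l.flatMap fun x => inn n e2 x ++ z (6 * bb n A + zc n e2 x - 1)) =
      body n e2 (l.map fun x => (x, 6)) := by
    intro l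
    induction l with
    | nil => rfl
    | cons x l ih =>
      rw [List.flatMap_cons, ec_append, ih, ec_append, ec_inn, ec_z]
      have h1 : body n e2 ((x :: l).map fun x => (x, 6)) =
          (H n e2 x ++ z (6 * bb n A + zc n e2 x)) ++ body n e2 (l.map fun x => (x, 6)) := by
        simp [body, List.flatMap_cons]
      rw [h1]
      congr 1
      rw [List.append_assoc]
      congr 1
      have h2 : ([false] : List Bool) = z 1 := rfl
      rw [h2, z_add]
      congr 1
      omega
  unfold DD
  rw [ec_append, ec_append, ec_append, ec_z, ec_z, hpre, ec_inn]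
  set c := 2 * bb n A + e1 q + zc n e2 b - (2 + zc n e2 a + e1 q') with hc
  have h3 : ([false] : List Bool) = z 1 := rfl
  have h4 : z (c + 2) = z 1 ++ (z c ++ z 1) := by
    rw [z_add, z_add]
    congr 1
    omega
  rw [h3, h4]
  simp only [List.append_assoc]

/-- the ring gets longer -/
theorem ec_DD_len (q q' : St) (a b : Sy) (pre : List Sy) :
    (DD e1 e2 q a q' pre b).length < (ec (DD e1 e2 q a q' pre b)).length := by
  rw [ec_length]
  have h1 : true ∈ DD e1 e2 q a q' pre b := by
    simp [DD, inn]
  have h2 := List.count_pos_iff.mpr h1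
  omega

end

end R913
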