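import Pool.Agent.Lib.R913.QNum

/-!
# Module QGrp: the classes of the program of a queue automaton

PROOFS.  Unfold `gsQ`.  `gsQ_per`: `Nat.add_mod_right`.  `gsQ_garbage`: the condition `r % bb n A < n * A` is false.
`gsQ_class`: `e1 q + n * e2 a < n * A < bb n A` (`class_lt`, `nA_lt_bb`), so `r % bb n A = e1 q + n * e2 a`; modulo `n` this is
`e1 q` (`Nat.add_mul_mod_self_left`, `Nat.mod_eq_of_lt`) and the quotient by `n` is `e2 a`
(`Nat.add_mul_div_left`, `Nat.div_eq_of_lt`); `Equiv.symm_apply_apply` after `Fin.ext`.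
`gsQ_head`: if `r + 1 ≡ n A + e1 q` and `1 ≤ i ≤ ww n A` then `(r + i) % bb n A = n A + e1 q + i - 1 < bb n A`, which is `≥ n A`.
-/

set_option autoImplicit false

namespace R913

open P913

section

variable {St Sy : Type} {n A : ℕ} (e1 : St ≃ Fin n) (e2 : Sy ≃ Fin A) (Q : QA St Sy)

theorem gsQ_per (r : ℕ) : gsQ e1 e2 Q (r + bb n A) = gsQ e1 e2 Q r := by
  unfold gsQ
  simp only [Nat.add_mod_right]

theorem gsQ_garbage (r : ℕ) (h : n * A ≤ r % bb n A) : gsQ e1 e2 Q r = some [] := by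
  unfold gsQ
  rw [dif_neg (by omega)]

theorem gsQ_class (r : ℕ) (q : St) (a : Sy)
    (h : r % bb n A = ((e1 q : ℕ) + n * (e2 a : ℕ)) % bb n A) : gsQ e1 e2 Q r = grp e1 e2 Q q a := by
  have hn : (e1 q : ℕ) < n := (e1 q).2
  have hA : (e2 a : ℕ) < A := (e2 a).2
  have hn0 : 0 < n := by omega
  have hlt : (e1 q : ℕ) + n * (e2 a : ℕ) < n * A := by
    calc (e1 q : ℕ) + n * (e2 a : ℕ) < n + n * (e2 a : ℕ) := by omega
      _ = n * ((e2 a : ℕ) + 1) := by ring
      _ ≤ n * A := Nat.mul_le_mul_left _ (by omega)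
  have hbb : n * A < bb n A := by
    unfold bb ww
    omega
  rw [Nat.mod_eq_of_lt (hlt.trans hbb)] at h
  unfold gsQ
  rw [dif_pos (by rw [h]; exact hlt)]
  have h1 : e1.symm ⟨r % bb n A % n, Nat.mod_lt _ hn0⟩ = q := by
    rw [Equiv.symm_apply_eq]
    apply Fin.ext
    simp only [h, Nat.add_mul_mod_self_left]
    exact Nat.mod_eq_of_lt hn
  have h2 : e2.symm ⟨r % bb n A / n, Nat.div_lt_of_lt_mul (by rw [h]; exact hlt)⟩ = a := by
    rw [Equiv.symm_apply_eq]
    apply Fin.ext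
    simp only [h, Nat.add_mul_div_left _ _ hn0, Nat.div_eq_of_lt hn, zero_add]
  rw [h1, h2]

theorem gsQ_head (r : ℕ) (q : St) (h : (r + 1) % bb n A = (n * A + (e1 q : ℕ)) % bb n A) (i : ℕ) (h1 : 1 ≤ i)
    (h2 : i ≤ ww n A) : gsQ e1 e2 Q (r + i) = some [] := by
  have hn : (e1 q : ℕ) < n := (e1 q).2
  have hn0 : 0 < n := by omega
  apply gsQ_garbage
  have hw : ww n A = n * A + n - 1 := rfl
  have hb : bb n A = 2 * ww n A + 1 := rfl
  have h4 : (r + i) % bb n A = n * A + (e1 q : ℕ) + i - 1 := by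
    have h5 : (r + 1) % bb n A = n * A + (e1 q : ℕ) := by
      rw [h]
      exact Nat.mod_eq_of_lt (by omega)
    have h6 : r + i = (r + 1) + (i - 1) := by omega
    rw [h6, Nat.add_mod, h5]
    have h7 : (i - 1) % bb n A = i - 1 := Nat.mod_eq_of_lt (by omega)
    rw [h7, Nat.mod_eq_of_lt (by omega)]
    omega
  omega

end

end R913
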