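import Pool.Agent.Lib.R913.QDef

/-!
# Module QNum: numbers and lengths

PROOFS.  `zc n e2 a = n * (A - j)` with `j = e2 a < A` (`(e2 a).2`), so `zc + n * j = n * A` and `n ≤ zc ≤ n * A`
(`Nat.mul_le_mul_left`, `1 ≤ A - j`).  `ww n A = n * A + n - 1`, `bb n A = 2 * ww n A + 1`, `0 < n` because of `q`
(`(e1 q).2`).  `len_H`: `Wd` has the length `3 * ww + 1`.  `len_inn`.  `len_DD`: the words `inn x ++ z (6 bb + zc x - 1)` have
the length `9 * bb` (induction on `pre`), the rest is arithmetic (`omega` after fixing the products).
-/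

set_option autoImplicit false

namespace R913

open P913

private theorem len_z (k : ℕ) : (z k).length = k := by
  simp [z]

section

variable {St Sy : Type} {n A : ℕ} (e1 : St ≃ Fin n) (e2 : Sy ≃ Fin A)

theorem zc_add (a : Sy) : zc n e2 a + n * (e2 a : ℕ) = n * A := by
  unfold zc
  rw [← Nat.mul_add, Nat.sub_add_cancel (e2 a).2.le]

theorem zc_ge (a : Sy) : n ≤ zc n e2 a := by
  have h := (e2 a).2
  unfold zc
  exact Nat.le_mul_of_pos_right n (by omega)

theorem zc_le (a : Sy) : zc n e2 a ≤ n * A := by
  unfold zc
  exact Nat.mul_le_mul_left n (Nat.sub_le _ _)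

theorem nA_lt_bb (q : St) : n * A < bb n A := by
  unfold bb ww
  rcases Nat.eq_zero_or_pos n with h | h
  · subst h
    simp
  · omega

/-- the class of the last one of a symbol -/
theorem class_lt (q : St) (a : Sy) : (e1 q : ℕ) + n * (e2 a : ℕ) < n * A := by
  have h1 := (e1 q).2
  have h2 := zc_add e2 a (n := n)
  have h3 := zc_ge e2 a (n := n)
  omega

theorem c_nonneg (q q' : St) (a b : Sy) :
    2 + zc n e2 a + e1 q' ≤ 2 * bb n A + e1 q + zc n e2 b := by
  have h1 := (e1 q).2
  have h2 := (e1 q').2
  have h3 := zc_le e2 a (n := n)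
  unfold bb ww
  omega

theorem len_Wd (n A : ℕ) : (Wd n A).length = 3 * ww n A + 1 := by
  unfold Wd
  rw [List.length_append, List.length_flatten, List.map_replicate, List.sum_replicate, len_z]
  simp
  omega

theorem len_inn (q : St) (a : Sy) : (inn n e2 a).length + zc n e2 a = 3 * bb n A + 1 := by
  have h1 := nA_lt_bb (n := n) (A := A) q
  have h2 := zc_le e2 a (n := n)
  unfold inn
  simp only [List.length_append, List.length_replicate, List.length_cons, List.length_nil]
  unfold bb at *
  omega

theorem len_DD (q q' : St) (a b : Sy) (pre : List Sy) :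
    (DD e1 e2 q a q' pre b).length + e1 q' = (9 * pre.length + 5) * bb n A + e1 q := by
  have hpre : (pre.flatMap fun x => inn n e2 x ++ z (6 * bb n A + zc n e2 x - 1)).length =
      9 * pre.length * bb n A := by
    induction pre with
    | nil => simp
    | cons x l ih =>
      rw [List.flatMap_cons, List.length_append, ih, List.length_append, len_z, List.length_cons]
      have h1 := len_inn (n := n) e2 q x
      have h2 : 9 * (l.length + 1) * bb n A = 9 * l.length * bb n A + 9 * bb n A := by ring
      rw [h2]
      have h3 : 1 ≤ bb n A := by unfold bb; omega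
      omega
  have h1 := len_inn (n := n) e2 q b
  have h2 := c_nonneg e1 e2 q q' a b
  have h3 := zc_le e2 b (n := n)
  have h4 := nA_lt_bb (n := n) (A := A) q
  unfold DD
  simp only [List.length_append, len_z, hpre]
  have h5 : (9 * pre.length + 5) * bb n A = 9 * pre.length * bb n A + 5 * bb n A := by ring
  rw [h5]
  omega

end

end R913
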