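import Pool.Agent.Lib.R913.GScan
import Pool.Agent.Lib.R913.QGrp
import Pool.Agent.Lib.R913.QEc

/-!
# Module QSim: one step of the queue automaton in the ring (the main lemma)

Write `B = bb n A`, `w = ww n A`, `zb = zc b` and so on.

PROOF of `readH` (reading the first symbol).  `c.2 = a :: w'` has length `≥ 2`, so in `RelQ` the list `l` is
`(a, g) :: l'`, `t = z x ++ (H a ++ (z (g B + za) ++ (body l' ++ (H aN ++ z y))))`.
`scan_zero` (x zeros) leads to `(r + x, H a ++ (... ++ z x))`; `scan_H` (the classes: `gsQ_head` with `r + x + 1`) to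
`(r + x + 2 B + (B - za), true :: (z (g B + za) ++ (body l' ++ (H aN ++ z y)) ++ z x ++ z (6 w + 2 + (B - za))))`; collect the zeros
at the end (`List.replicate_append_replicate` / `List.append_assoc`).  The next class is
`r + x + 2 B + (B - za) + 1 = (r + 1 + x) + 3 B - za ≡ n A + e1 q - za ≡ e1 q + n * e2 a` modulo `B` (`zc_add`, `za ≤ n A < B`), so
`gsQ_class` gives the group `grp q a`.
PROOF of `relQ_step`: by `readH` and `GS.one`: `grp q a = some D`, `D = DD ..`, `k = D.length`, `k + e1 q' = (9 m + 5) B + e1 q`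
(`len_DD`, `m = pre.length`), and `g ≥ G a ≥ 6 + 9 m` (`hG`), so `k + 1 ≤ g B + za` (`n ≤ za`, `e1 q ≤ n - 1`):
`z (g B + za) = z (k + 1) ++ z (g B + za - k - 1)`.  The new data are (`ec_DD`)
`z x' ++ (body l' ++ (H aN ++ (z (y + x + (6 w + 2 + (B - za))) ++ false :: (z (za + 1) ++ (body pre6 ++ (H b ++ z (c + 2)))))))`, `x' =
g B + za - k - 1`.  Zeros behind `H aN`: `y + x + 6 w + 2 + B - za + 1 + za + 1 = gN B + zaN` (because of
`y + x + 1 + 4 B = gN B + zaN` and `B = 2 w + 1`).  So the new list is `l' ++ [(aN, gN)] ++ pre.map (·, 6)`, last symbol `b`,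
`y' = c + 2`, `g' = g + 1 - 9 m`: `y' + x' + 1 + 4 B = g' B + zb` (with `c + (2 + za + e1 q') = 2 B + e1 q + zb` and `len_DD`),
`G b ≤ g'` by `hG`; the class: `r' + 1 + x' = (r + 1 + x) + (3 + g) B - k ≡ n A + e1 q - k ≡ n A + e1 q'`.
Length: `scan`s preserve it (or compare directly), `ec_DD_len`.
For the congruences it is convenient to write `r + 1 + x = n A + e1 q + B * u` or `... + B * u = n A + e1 q` (`Nat.ModEq`), or to use
`Int.emod_emod_of_dvd`, `Nat.ModEq.add`, `(Nat.modEq_iff_dvd)`; products like `g * B` are atoms for `omega`.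
-/

set_option autoImplicit false

namespace R913

open P913

namespace QSimAux

theorem body_cons {Sy : Type} {A : ℕ} (n : ℕ) (e2 : Sy ≃ Fin A) (a : Sy) (g : ℕ) (l : List (Sy × ℕ)) :
    body n e2 ((a, g) :: l) = H n e2 a ++ (z (g * bb n A + zc n e2 a) ++ body n e2 l) := by
  simp [body, List.flatMap_cons, List.append_assoc]

theorem body_append {Sy : Type} {A : ℕ} (n : ℕ) (e2 : Sy ≃ Fin A) (l l' : List (Sy × ℕ)) :
    body n e2 (l ++ l') = body n e2 l ++ body n e2 l' := by
  simp [body, List.flatMap_append]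

theorem z_add (a b : ℕ) : z a ++ z b = z (a + b) := by
  simp [z]

theorem len_H {Sy : Type} {A : ℕ} (n : ℕ) (e2 : Sy ≃ Fin A) (a : Sy) :
    (H n e2 a).length = 6 * ww n A + 2 + (bb n A - zc n e2 a) + 1 := by
  simp only [H, List.length_append, len_Wd, List.length_replicate, List.length_cons, List.length_nil]
  omega

end QSimAux

open QSimAux

section

variable {St Sy : Type} {n A : ℕ} (e1 : St ≃ Fin n) (e2 : Sy ≃ Fin A) (Q : QA St Sy)

/-- reading the first symbol up to its last one -/
theorem readH (q : St) (a : Sy) (w : List Sy) (hw : w ≠ []) (s : ℕ × List Bool) (h : RelQ e1 e2 Q (q, a :: w) s) :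
    ∃ (l : List (Sy × ℕ)) (g : ℕ) (aN : Sy) (gN x y : ℕ),
      w = l.map Prod.fst ++ [aN] ∧ (∀ p ∈ l, Q.G p.1 ≤ p.2) ∧ Q.G a ≤ g ∧ Q.G aN ≤ gN ∧
      y + x + 1 + 4 * bb n A = gN * bb n A + zc n e2 aN ∧
      (s.1 + 1 + x) % bb n A = (n * A + e1 q) % bb n A ∧
      s.2 = z x ++ (body n e2 ((a, g) :: l) ++ (H n e2 aN ++ z y)) ∧
      GSs (gsQ e1 e2 Q) s (s.1 + x + 2 * bb n A + (bb n A - zc n e2 a),
        true :: (z (g * bb n A + zc n e2 a) ++ (body n e2 l ++ (H n e2 aN ++
          z (y + x + (6 * ww n A + 2 + (bb n A - zc n e2 a))))))) ∧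
      gsQ e1 e2 Q (s.1 + x + 2 * bb n A + (bb n A - zc n e2 a) + 1) = grp e1 e2 Q q a := by
  obtain ⟨l0, aN, gN, x, y, hw1, ht, hl, hg, hy, hc⟩ := h
  cases l0 with
  | nil =>
    exfalso
    simp only [List.map_nil, List.nil_append, List.cons.injEq] at hw1
    exact hw hw1.2
  | cons p l =>
    obtain ⟨a', g⟩ := p
    simp only [List.map_cons, List.cons_append, List.cons.injEq] at hw1
    obtain ⟨rfl, hw2⟩ := hw1
    have hga : Q.G a ≤ g := hl (a, g) (List.mem_cons_self)
    have hl' : ∀ p ∈ l, Q.G p.1 ≤ p.2 := fun p hp => hl p (List.mem_cons_of_mem _ hp)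
    have hza := zc_le (n := n) e2 a
    have hzn := zc_add (n := n) e2 a
    have hnb := nA_lt_bb (n := n) (A := A) q
    refine ⟨l, g, aN, gN, x, y, hw2, hl', hga, hg, hy, hc, ht, ?_, ?_⟩
    · have hs : s = (s.1, z x ++ (body n e2 ((a, g) :: l) ++ (H n e2 aN ++ z y))) := by
        rw [← ht]
      have h1 := scan_zero (gsQ e1 e2 Q) x s.1 (body n e2 ((a, g) :: l) ++ (H n e2 aN ++ z y))
      have h2 : (body n e2 ((a, g) :: l) ++ (H n e2 aN ++ z y)) ++ z x =
          H n e2 a ++ (z (g * bb n A + zc n e2 a) ++ (body n e2 l ++ (H n e2 aN ++ z (y + x)))) := by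
        rw [body_cons, ← z_add y x]
        simp only [List.append_assoc]
      rw [h2] at h1
      have h3 := scan_H (gsQ e1 e2 Q) e2 (gsQ_per e1 e2 Q) (s.1 + x) a
        (z (g * bb n A + zc n e2 a) ++ (body n e2 l ++ (H n e2 aN ++ z (y + x))))
        (fun i hi1 hi2 => gsQ_head e1 e2 Q (s.1 + x) q (by rw [← hc]; congr 1; omega) i hi1 hi2)
      have h4 : (z (g * bb n A + zc n e2 a) ++ (body n e2 l ++ (H n e2 aN ++ z (y + x)))) ++
          z (6 * ww n A + 2 + (bb n A - zc n e2 a)) =
          z (g * bb n A + zc n e2 a) ++ (body n e2 l ++ (H n e2 aN ++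
            z (y + x + (6 * ww n A + 2 + (bb n A - zc n e2 a))))) := by
        rw [← z_add (y + x)]
        simp only [List.append_assoc]
      rw [h4] at h3
      rw [hs]
      exact Relation.ReflTransGen.trans h1 h3
    · apply gsQ_class
      have e : s.1 + x + 2 * bb n A + (bb n A - zc n e2 a) + 1 + zc n e2 a = (s.1 + 1 + x) + bb n A * 3 := by
        omega
      have e' : ((e1 q : ℕ) + n * (e2 a : ℕ)) + zc n e2 a = n * A + e1 q := by omega
      have h5 : (s.1 + x + 2 * bb n A + (bb n A - zc n e2 a) + 1) + zc n e2 a ≡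
          ((e1 q : ℕ) + n * (e2 a : ℕ)) + zc n e2 a [MOD bb n A] := by
        rw [e, e']
        unfold Nat.ModEq
        rw [Nat.add_mul_mod_self_left]
        exact hc
      exact Nat.ModEq.add_right_cancel' _ h5

theorem relQ_step (c c' : St × List Sy) (s : ℕ × List Bool) (h : RelQ e1 e2 Q c s) (hc : 2 ≤ c.2.length)
    (hs : QStep Q c c') :
    ∃ s' : ℕ × List Bool, GSp (gsQ e1 e2 Q) s s' ∧ RelQ e1 e2 Q c' s' ∧ s.2.length < s'.2.length := by
  cases hs with
  | mk q q' a b w pre ht =>
    simp only [List.length_cons] at hc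
    have hw : w ≠ [] := by
      rintro rfl
      simp at hc
    obtain ⟨l, g, aN, gN, x, y, hw1, hl, hga, hgN, hy, hcl, hs2, hrun, hgrp⟩ := readH e1 e2 Q q a w hw s h
    obtain ⟨hG1, hG2, hG3⟩ := Q.hG q a q' pre b ht
    have hgr : grp e1 e2 Q q a = some (DD e1 e2 q a q' pre b) := by
      simp [grp, ht]
    rw [hgr] at hgrp
    have hk := len_DD e1 e2 q q' a b pre
    have hlt := ec_DD_len e1 e2 q q' a b pre
    have hec := ec_DD e1 e2 q q' a b pre
    have hc0 := c_nonneg e1 e2 q q' a b
    have hzle := zc_le (n := n) e2 a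
    have hzge := zc_ge (n := n) e2 a
    have hnb := nA_lt_bb (n := n) (A := A) q
    have hq := (e1 q).2
    have hbb : bb n A = 2 * ww n A + 1 := rfl
    set D := DD e1 e2 q a q' pre b with hD
    set k := D.length with hkd
    set B := bb n A with hB
    set za := zc n e2 a with hza
    set zb := zc n e2 b with hzb
    set w0 := ww n A with hw0
    set m := pre.length with hm
    have hgB : (6 + 9 * m) * B ≤ g * B := Nat.mul_le_mul_right _ (le_trans hG1 hga)
    have hexp1 : (6 + 9 * m) * B = 6 * B + 9 * (m * B) := by ring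
    have hexp2 : (9 * m + 5) * B = 9 * (m * B) + 5 * B := by ring
    have hk1 : k + 1 ≤ g * B + za := by omega
    obtain ⟨x', hx'⟩ : ∃ x', g * B + za = (k + 1) + x' := ⟨g * B + za - (k + 1), by omega⟩
    obtain ⟨c, hcc⟩ : ∃ c, c = 2 * B + e1 q + zb - (2 + za + e1 q') := ⟨_, rfl⟩
    rw [← hcc] at hec
    obtain ⟨g', hg'⟩ : ∃ g', g' + 9 * m = g + 1 := ⟨g + 1 - 9 * m, by omega⟩
    have hgB' : g' * B + 9 * (m * B) = g * B + B := by
      have this : (g' + 9 * m) * B = (g + 1) * B := by rw [hg']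
      calc g' * B + 9 * (m * B) = (g' + 9 * m) * B := by ring
        _ = (g + 1) * B := this
        _ = g * B + B := by ring
    have hone := GS.one (gs := gsQ e1 e2 Q) (s.1 + x + 2 * B + (B - za))
      (z x' ++ (body n e2 l ++ (H n e2 aN ++ z (y + x + (6 * w0 + 2 + (B - za)))))) D hgrp
    have hz : z (g * B + za) = z (k + 1) ++ z x' := by rw [hx', z_add]
    rw [hz, List.append_assoc] at hrun
    refine ⟨_, Relation.TransGen.tail' hrun hone, ?_, ?_⟩
    · refine ⟨l ++ ((aN, gN) :: pre.map fun x => (x, 6)), b, g', x', c + 2, ?_, ?_, ?_, ?_, ?_, ?_⟩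
      · simp [hw1, List.map_append, Function.comp_def]
      · simp only
        rw [hec, body_append, body_cons]
        have e1' : z (gN * bb n A + zc n e2 aN) =
            z (y + x + (6 * w0 + 2 + (B - za))) ++ (false :: z (za + 1)) := by
          have : (false :: z (za + 1)) = z (za + 1 + 1) := by simp [z, List.replicate_succ]
          rw [this, z_add]
          congr 1
          change gN * B + zc n e2 aN = _
          omega
        rw [e1']
        simp only [List.append_assoc, List.cons_append]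
      · intro p hp
        rw [List.mem_append, List.mem_cons] at hp
        rcases hp with hp | rfl | hp
        · exact hl p hp
        · exact hgN
        · rw [List.mem_map] at hp
          obtain ⟨u, hu, rfl⟩ := hp
          exact hG3 u hu
      · change Q.G b ≤ g'
        omega
      · change c + 2 + x' + 1 + 4 * B = g' * B + zb
        omega
      · simp only
        have h5 : (s.1 + x + 2 * B + (B - za) + 1 + 1 + x') + (e1 q : ℕ) + B * (9 * m + 5) =
            (s.1 + 1 + x) + (e1 q' : ℕ) + B * (3 + g) := by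
          have e3 : B * (9 * m + 5) = 9 * (m * B) + 5 * B := by ring
          have e4 : B * (3 + g) = 3 * B + g * B := by ring
          omega
        have h6 : (s.1 + x + 2 * B + (B - za) + 1 + 1 + x') + (e1 q : ℕ) ≡
            (n * A + (e1 q' : ℕ)) + (e1 q : ℕ) [MOD B] := by
          have h7 : (s.1 + x + 2 * B + (B - za) + 1 + 1 + x') + (e1 q : ℕ) ≡
              (s.1 + 1 + x) + (e1 q' : ℕ) [MOD B] := by
            unfold Nat.ModEq
            rw [← Nat.add_mul_mod_self_left ((s.1 + x + 2 * B + (B - za) + 1 + 1 + x') + (e1 q : ℕ)) B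
              (9 * m + 5), h5, Nat.add_mul_mod_self_left]
          refine h7.trans ?_
          have h8 : (s.1 + 1 + x) + (e1 q' : ℕ) ≡ (n * A + (e1 q : ℕ)) + (e1 q' : ℕ) [MOD B] :=
            Nat.ModEq.add_right _ hcl
          refine h8.trans ?_
          have : (n * A + (e1 q : ℕ)) + (e1 q' : ℕ) = (n * A + (e1 q' : ℕ)) + (e1 q : ℕ) := by ring
          rw [this]
        exact Nat.ModEq.add_right_cancel' _ h6
    · simp only
      rw [hs2]
      simp only [body_cons, List.length_append, List.length_cons, List.length_nil, List.length_replicate,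
        len_H]
      have hgg : g * bb n A = g * B := rfl
      omega

theorem relQ_halt (q : St) (a : Sy) (w : List Sy) (hw : w ≠ []) (ht : Q.t q a = none) (s : ℕ × List Bool)
    (h : RelQ e1 e2 Q (q, a :: w) s) :
    ∃ (r : ℕ) (t' : List Bool), GSs (gsQ e1 e2 Q) s (r, true :: t') ∧ gsQ e1 e2 Q (r + 1) = none ∧
      s.2.length ≤ t'.length + 1 := by
  obtain ⟨l, g, aN, gN, x, y, hw1, hl, hga, hgN, hy, hcl, hs2, hrun, hgrp⟩ := readH e1 e2 Q q a w hw s h
  have hgr : grp e1 e2 Q q a = none := by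
    simp [grp, ht]
  rw [hgr] at hgrp
  refine ⟨_, _, hrun, hgrp, ?_⟩
  rw [hs2]
  simp only [body_cons, List.length_append, List.length_cons, List.length_nil, List.length_replicate,
    len_H]
  omega

end

end R913
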