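import Pool.Agent.Lib.R913.RPrg

/-!
# Module REn: the input word and the decoding function

PROOFS.  `ren_comp`: the program word for `c` is `((List.range (c + 1)).flatMap fun _ => P1).tail` with the constant
`P1 = prg gs β 0` (`prg_eq`); `Primrec.list_flatMap` or `Primrec.list_range`, `Primrec.list_map`, `Primrec.list_flatten`,
`Primrec.list_tail`, `Primrec.list_append`, functions of a `Bool` by `Primrec.dom_finite`; everything is primitive
recursive, `Primrec.to_comp`; `Computable₂ f` is `Computable fun p => f p.1 p.2`.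
`rdec_comp`: `K.dec0_comp`, `Primrec.nat_div`, `Primrec.nat_sub`.
`rdec_spec`: `p.length + 1 = (c + 1) * ℓ`, `ℓ > 0`: `(p.length + 1) / ℓ - 1 = c`.
-/

set_option autoImplicit false

namespace R913

open P913

section

variable {k n : ℕ} [NeZero k] [NeZero n] {U : TM k n} (K : RLoc U) (gs : ℕ → Option (List Bool)) (β : ℕ)

/-- the input word -/
def ren (c : ℕ) (t : List Bool) : List (Fin n) :=
  K.E ++ (((List.replicate (c + 1) (prg gs β 0)).flatten.tail).flatMap K.cr ++ (K.fr Md.B ++ t.flatMap K.cr))

/-- the decoding function -/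
def rdec (w : List ℕ × List ℕ) : ℕ := (K.dec0 w.2 + 1) / (prg gs β 0).length - 1

theorem ren_comp : Computable₂ (ren K gs β) := by
  have hcr : Primrec K.cr := Primrec.dom_finite _
  have h1 : Primrec fun p : ℕ × List Bool =>
      ((List.range (p.1 + 1)).flatMap fun _ => prg gs β 0).tail.flatMap K.cr := by
    have a1 : Primrec fun p : ℕ × List Bool => List.range (p.1 + 1) :=
      Primrec.list_range.comp (Primrec.succ.comp Primrec.fst)
    have a2 : Primrec fun p : ℕ × List Bool =>
        (List.range (p.1 + 1)).flatMap fun _ => prg gs β 0 :=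
      Primrec.list_flatMap a1 ((Primrec.const (prg gs β 0)).to₂)
    have a3 := Primrec.list_tail.comp a2
    exact Primrec.list_flatMap a3 ((hcr.comp Primrec.snd).to₂)
  have h2 : Primrec fun p : ℕ × List Bool => p.2.flatMap K.cr :=
    Primrec.list_flatMap Primrec.snd ((hcr.comp Primrec.snd).to₂)
  have h3 : Primrec fun p : ℕ × List Bool => ren K gs β p.1 p.2 := by
    have h4 : (fun p : ℕ × List Bool => ren K gs β p.1 p.2) = fun p : ℕ × List Bool =>
        K.E ++ (((List.range (p.1 + 1)).flatMap fun _ => prg gs β 0).tail.flatMap K.cr ++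
          (K.fr Md.B ++ p.2.flatMap K.cr)) := by
      funext p
      unfold ren
      have h5 : (List.replicate (p.1 + 1) (prg gs β 0)).flatten =
          (List.range (p.1 + 1)).flatMap fun _ => prg gs β 0 := by
        rw [List.flatMap_def, List.map_const', List.length_range]
      rw [h5]
    rw [h4]
    exact Primrec.list_append.comp (Primrec.const K.E)
      (Primrec.list_append.comp h1 (Primrec.list_append.comp (Primrec.const (K.fr Md.B)) h2))
  exact h3.to_comp

theorem rdec_comp : Computable (rdec K gs β) := by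
  have h1 : Computable fun w : List ℕ × List ℕ => K.dec0 w.2 := K.dec0_comp.comp Computable.snd
  have h2 : Primrec fun x : ℕ => (x + 1) / (prg gs β 0).length - 1 :=
    Primrec.nat_sub.comp (Primrec.nat_div.comp Primrec.succ (Primrec.const (prg gs β 0).length)) (Primrec.const 1)
  exact h2.to_comp.comp h1

theorem rdec_spec (c : ℕ) (p d : List Bool) (hβ : 0 < β) (hp : p.length + 1 = (c + 1) * (prg gs β 0).length)
    (l : List ℕ) :
    rdec K gs β (l, (K.E ++ (p.flatMap K.cl ++ (K.fh ++ d.flatMap K.cr))).map fun s : Fin n => (s : ℕ)) = c := by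
  unfold rdec
  show (K.dec0 ((K.E ++ (p.flatMap K.cl ++ (K.fh ++ d.flatMap K.cr))).map fun s : Fin n => (s : ℕ)) + 1) /
    (prg gs β 0).length - 1 = c
  rw [K.dec0_spec, hp, Nat.mul_div_cancel _ (prg_pos gs β hβ)]
  rfl

end

end R913
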