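import Pool.Agent.Lib.R913.GSDef

/-!
# Machines with two in-place queues: the local computations

Tape: `E`, program cells, interpreter cell `F`, data cells, blanks.  A program or data cell with the bit `a` is the word
`cl a` (head on its right side) or `cr a` (head on its left side).  The head carries a bit in both directions (states
`R b`, `L b`).  Passing a cell to the right keeps the bits, passing to the left exchanges the bits (shift).
`F` is `fr m` (head on its left side, `m` = mode) or `fl w` (head on its right side, the bit `w` has been pushed).
-/

set_option autoImplicit false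

namespace R913

open P913

/-- modes of the interpreter -/
inductive Md where
  | A | B | C | W
  deriving DecidableEq

/-- transitions of the interpreter without access to the data -/
def bnc : Md → Bool → Option Md
  | .A, false => some .B
  | .A, true => some .A
  | .B, false => some .C
  | .B, true => some .A
  | .C, false => none
  | .C, true => some .W
  | .W, _ => none

/-- the mode after a push of `w` and a pop of `v` -/
def bk (w v : Bool) : Md := if w then .C else if v then .C else .B

/-- a machine with the local computations -/
structure RLoc {k n : ℕ} [NeZero k] [NeZero n] (U : TM k n) where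
  R : Bool → Fin k
  L : Bool → Fin k
  cr : Bool → List (Fin n)
  cl : Bool → List (Fin n)
  E : List (Fin n)
  fr : Md → List (Fin n)
  fl : Bool → List (Fin n)
  /-- the interpreter cell in the final tape -/
  fh : List (Fin n)
  /-- right pass -/
  passR : ∀ (a b : Bool) (l r : List (Fin n)), Rn U (AR l (R b) (cr a ++ r)) (AR ((cl a).reverse ++ l) (R b) r)
  /-- left pass -/
  passL : ∀ (a c : Bool) (l r : List (Fin n)), Rn U (AL ((cl a).reverse ++ l) (L c) r) (AL l (L a) (cr c ++ r))
  /-- left end -/
  lend : ∀ (c : Bool) (r : List (Fin n)), Rp U (AL E.reverse (L c) r) (AR E.reverse (R c) r)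
  /-- right end (blank), push of `0`, push of `1` -/
  end0 : ∀ l : List (Fin n), Rn U (AR l (R false) []) (AL l (L false) [])
  end1 : ∀ l : List (Fin n), Rn U (AR l (R true) []) (AL l (L true) (cr false))
  /-- interpreter, from the left -/
  bounce : ∀ (m m' : Md) (c : Bool) (l r : List (Fin n)), bnc m c = some m' →
    Rn U (AR l (R c) (fr m ++ r)) (AL l (L c) (fr m' ++ r))
  go : ∀ (w : Bool) (l r : List (Fin n)),
    Rn U (AR l (R (!w)) (fr Md.W ++ r)) (AR ((fl w).reverse ++ l) (R w) r)
  /-- interpreter, from the right -/
  back : ∀ (w v : Bool) (l r : List (Fin n)), (w = true → v = false) →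
    Rn U (AL ((fl w).reverse ++ l) (L v) r) (AL l (L (!w)) (fr (bk w v) ++ r))
  /-- halting -/
  halt : ∀ l r : List (Fin n), ∃ t : ℕ, ((step U)^[t] (AR l (R false) (fr Md.C ++ r))).st = none ∧
    ((step U)^[t] (AR l (R false) (fr Md.C ++ r))).tape = wordTape (l.reverse ++ (fh ++ r))
  /-- start -/
  start : ∀ r : List (Fin n), Rn U (AR [] 0 (E ++ r)) (AR E.reverse (R false) r)
  /-- the number of program cells can be read from the final tape -/
  dec0 : List ℕ → ℕ
  dec0_comp : Computable dec0
  dec0_spec : ∀ p d : List Bool, dec0 ((E ++ (p.flatMap cl ++ (fh ++ d.flatMap cr))).map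
    fun s : Fin n => (s : ℕ)) = p.length
  cr_last : ∀ b : Bool, ∃ s, (cr b).getLast? = some s ∧ s ≠ 0

section

variable {k n : ℕ} [NeZero k] [NeZero n] {U : TM k n} (K : RLoc U)

/-- the head is on the left side of `F` and carries the first bit `c` of the program queue `c :: p`; mode `m`,
data `t` -/
def RLoc.CF (m : Md) (c : Bool) (p t : List Bool) : Cfg k n :=
  AR ((p.flatMap K.cl).reverse ++ K.E.reverse) (K.R c) (K.fr m ++ t.flatMap K.cr)

/-- the same, with the program queue as one list -/
def RLoc.CQ (m : Md) (P t : List Bool) : Cfg k n := K.CF m (P.headD false) P.tail t

end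

/-- the interpreter reads the program bit `c` in the mode `m` with the data `t` -/
def tk (m : Md) (c : Bool) (t : List Bool) : Option (Md × List Bool) :=
  match m with
  | .W => match t ++ ec [!c] with
    | [] => none
    | v :: t' => if c = false ∧ v = true then none else some (bk (!c) v, t')
  | m => (bnc m c).map fun m' => (m', t)

/-- the interpreter reads the program word `u` -/
def rdw : Md → List Bool → List Bool → Option (Md × List Bool)
  | m, [], t => some (m, t)
  | m, c :: u, t => (tk m c t).bind fun x => rdw x.1 u x.2

/-- the code of a word which is pushed -/
def cdw (D : List Bool) : List Bool := D.flatMap fun b => if b then [true, false] else [true, true, false]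

/-- the word in front of the class with the group `x` -/
def pre (x : Option (List Bool)) : List Bool :=
  match x with
  | none => []
  | some D => cdw D ++ [true, true, true, false]

/-- the program word of one class: a plain step, then the group of the next class -/
def seg (gs : ℕ → Option (List Bool)) (r : ℕ) : List Bool := [false, true, true] ++ pre (gs (r + 1))

/-- the program queue at the class `r`; `m` = number of classes -/
def prg (gs : ℕ → Option (List Bool)) (m r : ℕ) : List Bool := (List.range m).flatMap fun i => seg gs (r + i)

end R913
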