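import Pool.Agent.Lib.R913.RLoc

/-!
# Module RPrg: the program queue

`gs` has the period `m` (`m` = number of classes in the queue).

PROOFS.  `prg_succ`: `List.range_succ_eq_map` for `prg m r = seg r ++ X` and `List.range_succ` for the other end:
with `m = m' + 1`: `X = (List.range m').flatMap fun i => seg (r + (i + 1))`, and `prg m (r + 1) = X ++ seg (r + m' + 1)`,
`seg (r + m) = seg r` (period).  `prg_len`: for the period `β` of `gs` the word `prg (β * (c + 1)) r` consists of `c + 1`
words of the length of `prg β r` (`List.range` of a product: induction on `c`,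
`List.range_add`/`List.range_succ`, or: `prg (a + b) r = prg a r ++ prg b (r + a)`); the length of
`prg β r` does not depend on `r` (`prg_succ`: a permutation / rotation).  `prg_eq`: the same as lists for `r = 0`.
-/

set_option autoImplicit false

namespace R913

open P913

section

variable (gs : ℕ → Option (List Bool))

theorem prg_add (a b r : ℕ) : prg gs (a + b) r = prg gs a r ++ prg gs b (r + a) := by
  unfold prg
  rw [List.range_add, List.flatMap_append, List.flatMap_map]
  simp only [add_assoc]

namespace RPrgAux

theorem prg_one (r : ℕ) : prg gs 1 r = seg gs r := by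
  simp [prg, List.range_one]

theorem seg_per (m r : ℕ) (h : ∀ s, gs (s + m) = gs s) : seg gs (r + m) = seg gs r := by
  unfold seg
  have h1 : r + m + 1 = (r + 1) + m := by omega
  rw [h1, h]

theorem prg_per (m d r : ℕ) (h : ∀ s, gs (s + m) = gs s) : prg gs d (r + m) = prg gs d r := by
  induction d generalizing r with
  | zero => rfl
  | succ d ih =>
    rw [prg_add, prg_add gs d 1 r, ih, prg_one, prg_one]
    have h1 : r + m + d = (r + d) + m := by omega
    rw [h1, seg_per gs m (r + d) h]

end RPrgAux

open RPrgAux

theorem prg_succ (m r : ℕ) (hm : 0 < m) (h : ∀ s, gs (s + m) = gs s) :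
    ∃ X : List Bool, prg gs m r = seg gs r ++ X ∧ prg gs m (r + 1) = X ++ seg gs r := by
  obtain ⟨m', rfl⟩ : ∃ m', m = m' + 1 := ⟨m - 1, by omega⟩
  refine ⟨prg gs m' (r + 1), ?_, ?_⟩
  · rw [add_comm m' 1, prg_add, prg_one]
  · rw [prg_add, prg_one]
    have h1 : r + 1 + m' = r + (m' + 1) := by omega
    rw [h1, seg_per gs (m' + 1) r h]

theorem gs_period (β c : ℕ) (h : ∀ s, gs (s + β) = gs s) (s : ℕ) : gs (s + β * (c + 1)) = gs s := by
  induction c with
  | zero =>
    rw [zero_add, mul_one]
    exact h s
  | succ c ih =>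
    have h1 : s + β * (c + 1 + 1) = (s + β * (c + 1)) + β := by ring
    rw [h1, h, ih]

theorem prg_eq (β c : ℕ) (h : ∀ s, gs (s + β) = gs s) :
    prg gs (β * (c + 1)) 0 = (List.replicate (c + 1) (prg gs β 0)).flatten := by
  induction c with
  | zero => simp
  | succ c ih =>
    have h1 : β * (c + 1 + 1) = β * (c + 1) + β := by ring
    rw [h1, prg_add, ih, prg_per gs (β * (c + 1)) β 0 (gs_period gs β c h),
      List.replicate_succ' (n := c + 1), List.flatten_append, List.flatten_singleton]

theorem prg_len (β c r : ℕ) (hβ : 0 < β) (h : ∀ s, gs (s + β) = gs s) :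
    (prg gs (β * (c + 1)) r).length = (c + 1) * (prg gs β 0).length := by
  have h1 : (prg gs (β * (c + 1)) r).length = (prg gs (β * (c + 1)) 0).length := by
    induction r with
    | zero => rfl
    | succ r ih =>
      obtain ⟨X, hX, hX'⟩ := prg_succ gs (β * (c + 1)) r (Nat.mul_pos hβ (Nat.succ_pos c))
        (gs_period gs β c h)
      rw [← ih, hX, hX', List.length_append, List.length_append, add_comm]
  rw [h1, prg_eq gs β c h]
  simp [List.length_flatten]

theorem prg_pos (β : ℕ) (hβ : 0 < β) : 0 < (prg gs β 0).length := by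
  obtain ⟨m', rfl⟩ : ∃ m', β = 1 + m' := ⟨β - 1, by omega⟩
  rw [prg_add, prg_one, List.length_append]
  have h1 : 0 < (seg gs 0).length := by
    simp [seg]
  omega

/-- the program begins with the bit `0` -/
theorem prg_head (m r : ℕ) (hm : 0 < m) : ∃ X : List Bool, prg gs m r = false :: X := by
  obtain ⟨m', rfl⟩ : ∃ m', m = 1 + m' := ⟨m - 1, by omega⟩
  rw [prg_add, prg_one]
  refine ⟨(true :: true :: pre (gs (r + 1))) ++ prg gs m' (r + 1), ?_⟩
  simp [seg]

end

end R913
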