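import Pool.Agent.Lib.R913.RPass

/-!
# Module RRead: the machine reads program words

PROOFS.  `tick`: cases of the mode.  `m = A, B, C` (`tk m c t = (bnc m c).map ..`, so `t1 = t`): `K.bounce`, then
`left_exc`.  `m = W`: `w = !c` (`c = !w`), `t ++ ec [w] = v :: t1`: `K.go w`, `right_exc`, `K.back w v` (`L (!w) = L c`), `left_exc`.
`CQ_read`: induction on `u` (for all `m, P', t`): `c :: u` followed by `P'`: the queue is `c :: (u ++ P')`; `tick` with
`p = u ++ P'`, `p ++ [c] = c' :: p'`: the new queue is `(u ++ P') ++ [c] = u ++ (P' ++ [c])`; then the induction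
hypothesis with `P' ++ [c]`.
-/

set_option autoImplicit false

namespace R913

open P913

namespace RReadAux

theorem rp_rn {k n : ℕ} {U : TM k n} {a b : Cfg k n} (h : Rp U a b) : Rn U a b := by
  obtain ⟨t, ht⟩ := h
  exact ⟨t + 1, ht⟩

theorem tk_bnc {m m1 : Md} {c : Bool} {t t1 : List Bool} (hm : m ≠ Md.W) (h : tk m c t = some (m1, t1)) :
    bnc m c = some m1 ∧ t1 = t := by
  have h1 : tk m c t = (bnc m c).map fun m' => (m', t) := by
    cases m
    · rfl
    · rfl
    · rfl
    · exact absurd rfl hm
  rw [h1] at h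
  cases h2 : bnc m c with
  | none => rw [h2] at h; simp at h
  | some m2 =>
    rw [h2] at h
    simp only [Option.map_some, Option.some.injEq, Prod.mk.injEq] at h
    exact ⟨by rw [h.1], h.2.symm⟩

theorem tk_W {m1 : Md} {c : Bool} {t t1 : List Bool} (h : tk Md.W c t = some (m1, t1)) :
    ∃ v, t ++ ec [!c] = v :: t1 ∧ ¬ (c = false ∧ v = true) ∧ m1 = bk (!c) v := by
  unfold tk at h
  simp only at h
  cases h2 : t ++ ec [!c] with
  | nil => rw [h2] at h; simp at h
  | cons v t' =>
    rw [h2] at h
    simp only at h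
    by_cases h3 : c = false ∧ v = true
    · rw [if_pos h3] at h
      simp at h
    · rw [if_neg h3] at h
      simp only [Option.some.injEq, Prod.mk.injEq] at h
      exact ⟨v, by rw [h.2], h3, h.1.symm⟩

end RReadAux

section

variable {k n : ℕ} [NeZero k] [NeZero n] {U : TM k n} (K : RLoc U)

theorem tick (m m1 : Md) (c c' : Bool) (p p' t t1 : List Bool) (h : tk m c t = some (m1, t1))
    (hp : p ++ [c] = c' :: p') : Rp U (K.CF m c p t) (K.CF m1 c' p' t1) := by
  unfold RLoc.CF
  by_cases hm : m = Md.W
  · subst hm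
    obtain ⟨v, h1, h2, h3⟩ := RReadAux.tk_W h
    have hc : (!(!c)) = c := by cases c <;> rfl
    have s1 := K.go (!c) ((p.flatMap K.cl).reverse ++ K.E.reverse) (t.flatMap K.cr)
    rw [hc] at s1
    have s2 := right_exc K (!c) v t t1 h1 ((K.fl (!c)).reverse ++ ((p.flatMap K.cl).reverse ++ K.E.reverse))
    have s3 := K.back (!c) v ((p.flatMap K.cl).reverse ++ K.E.reverse) (t1.flatMap K.cr) (by
      intro h4
      cases c
      · cases v
        · rfl
        · exact absurd ⟨rfl, rfl⟩ h2
      · simp at h4)
    rw [hc, ← h3] at s3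
    have s4 := left_exc K c c' p p' hp (K.fr m1 ++ t1.flatMap K.cr)
    exact ((s1.trans s2).trans s3).trans_rp s4
  · obtain ⟨h1, h2⟩ := RReadAux.tk_bnc hm h
    subst h2
    exact (K.bounce m m1 c _ _ h1).trans_rp (left_exc K c c' p p' hp _)

private theorem CQ_read_pos' (u : List Bool) : ∀ (m m' : Md) (P' t t' : List Bool), u ≠ [] →
    rdw m u t = some (m', t') → Rp U (K.CQ m (u ++ P') t) (K.CQ m' (P' ++ u) t') := by
  induction u with
  | nil =>
    intro m m' P' t t' hu
    exact absurd rfl hu
  | cons c u ih =>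
    intro m m' P' t t' _ h
    unfold rdw at h
    cases h1 : tk m c t with
    | none => rw [h1] at h; simp at h
    | some x =>
      rw [h1] at h
      simp only [Option.bind_some] at h
      obtain ⟨m1, t1⟩ := x
      simp only at h
      obtain ⟨c', p', hp⟩ : ∃ c' p', (u ++ P') ++ [c] = c' :: p' := by
        cases h2 : (u ++ P') ++ [c] with
        | nil => simp at h2
        | cons a b => exact ⟨a, b, rfl⟩
      have s1 : Rp U (K.CQ m (c :: u ++ P') t) (K.CQ m1 (u ++ (P' ++ [c])) t1) := by
        have s2 := tick K m m1 c c' (u ++ P') p' t t1 h1 hp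
        have e1 : K.CQ m1 (u ++ (P' ++ [c])) t1 = K.CF m1 c' p' t1 := by
          rw [← List.append_assoc, hp]
          rfl
        rw [e1]
        exact s2
      by_cases hu : u = []
      · subst hu
        simp only [rdw, Option.some.injEq, Prod.mk.injEq] at h
        obtain ⟨rfl, rfl⟩ := h
        rw [List.nil_append] at s1
        exact s1
      · have s3 := RReadAux.rp_rn (ih m1 m' (P' ++ [c]) t1 t' hu h)
        rw [List.append_assoc, List.singleton_append] at s3
        exact s1.trans_rn s3

theorem CQ_read (m m' : Md) (u P' t t' : List Bool) (h : rdw m u t = some (m', t')) :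
    Rn U (K.CQ m (u ++ P') t) (K.CQ m' (P' ++ u) t') := by
  by_cases hu : u = []
  · subst hu
    simp only [rdw, Option.some.injEq, Prod.mk.injEq] at h
    obtain ⟨rfl, rfl⟩ := h
    rw [List.nil_append, List.append_nil]
    exact Rn.refl _
  · exact RReadAux.rp_rn (CQ_read_pos' K u m m' P' t t' hu h)

theorem CQ_read_pos (m m' : Md) (u P' t t' : List Bool) (hu : u ≠ []) (h : rdw m u t = some (m', t')) :
    Rp U (K.CQ m (u ++ P') t) (K.CQ m' (P' ++ u) t') := by
  exact CQ_read_pos' K u m m' P' t t' hu h

end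

end R913
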