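import Pool.Agent.Lib.R913.RLoc

/-!
# Module RWord: what the interpreter does on the program words

PROOFS.  `rdw_append`: induction on `u`.  `rdw_plain`: by cases on `v` and `simp [rdw, tk, bnc, ec, bk]` (`B -0→ C -1→ W`, then
the bit `1` pushes `0`).  `rdw_code_B`: induction on `D`: in mode `B` the words `110` and `10` lead back to `B`.
`rdw_pre_B`: `1110` too.  `rdw_code_C`: induction on `D`: data `z (D.length + j) ++ t`: `110` (push `0`, pop `0`) and `10`
(push `1`, pop `0`) in mode `C` lead to `C`: the data become `z (D.length + j - 1) ++ t ++ ec [b]`.  `rdw_pre_C`: the word `1110`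
pushes `0`, pops `0` and leads to `B` (`C -1→ W -1→ push 0 → B -1→ A -0→ B`).
`rdw_seg_zero`, `rdw_seg_one`: combine; `ec (b :: D) = ec [b] ++ ec D`, `ec [false] = [false]`.
-/

set_option autoImplicit false

namespace R913

open P913

theorem rdw_append (m : Md) (u u' t : List Bool) :
    rdw m (u ++ u') t = (rdw m u t).bind fun x => rdw x.1 u' x.2 := by
  induction u generalizing m t with
  | nil => rfl
  | cons c u ih =>
    show (tk m c t).bind (fun x => rdw x.1 (u ++ u') x.2) =
      ((tk m c t).bind fun x => rdw x.1 u x.2).bind fun x => rdw x.1 u' x.2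
    rw [Option.bind_assoc]
    congr 1
    funext x
    exact ih x.1 x.2

theorem rdw_plain (v : Bool) (t : List Bool) :
    rdw Md.B [false, true, true] (v :: t) = some (if v then Md.C else Md.B, t ++ [false]) := by
  cases v <;> simp [rdw, tk, bnc, ec, bk]

namespace RWordAux

theorem cdw_B (D t : List Bool) : rdw Md.B (cdw D) t = some (Md.B, t) := by
  induction D with
  | nil => rfl
  | cons b D ih =>
    have h : cdw (b :: D) = (if b then [true, false] else [true, true, false]) ++ cdw D := rfl
    rw [h, rdw_append]
    have h2 : rdw Md.B (if b then [true, false] else [true, true, false]) t = some (Md.B, t) := by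
      cases b <;> simp [rdw, tk, bnc]
    rw [h2]
    exact ih

theorem word_C (b : Bool) (t : List Bool) :
    rdw Md.C (if b then [true, false] else [true, true, false]) (false :: t) =
      some (Md.C, t ++ ec [b]) := by
  cases b <;> simp [rdw, tk, bnc, ec, bk]

theorem ec_cons (b : Bool) (D : List Bool) : ec (b :: D) = ec [b] ++ ec D := by
  simp [ec]

end RWordAux

open RWordAux

theorem rdw_pre_B (x : Option (List Bool)) (t : List Bool) : rdw Md.B (pre x) t = some (Md.B, t) := by
  cases x with
  | none => rfl
  | some D =>
    show rdw Md.B (cdw D ++ [true, true, true, false]) t = some (Md.B, t)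
    rw [rdw_append, cdw_B]
    simp [rdw, tk, bnc]

theorem rdw_code_C (D t : List Bool) (j : ℕ) :
    rdw Md.C (cdw D) (z (D.length + j) ++ t) = some (Md.C, z j ++ (t ++ ec D)) := by
  induction D generalizing t with
  | nil => simp [cdw, rdw, ec]
  | cons b D ih =>
    have h : cdw (b :: D) = (if b then [true, false] else [true, true, false]) ++ cdw D := rfl
    have h1 : z ((b :: D).length + j) ++ t = false :: (z (D.length + j) ++ t) := by
      rw [List.length_cons, show D.length + 1 + j = (D.length + j) + 1 by omega]
      rfl
    rw [h, h1, rdw_append, word_C]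
    show rdw Md.C (cdw D) (z (D.length + j) ++ t ++ ec [b]) = _
    rw [List.append_assoc, ih, ec_cons b D]
    simp only [List.append_assoc]

theorem rdw_pre_C (D t : List Bool) :
    rdw Md.C (pre (some D)) (z (D.length + 1) ++ t) = some (Md.B, t ++ (ec D ++ [false])) := by
  show rdw Md.C (cdw D ++ [true, true, true, false]) (z (D.length + 1) ++ t) = _
  rw [rdw_append, rdw_code_C]
  show rdw Md.C [true, true, true, false] (false :: (t ++ ec D)) = _
  simp [rdw, tk, bnc, bk, ec]

theorem rdw_seg_zero (gs : ℕ → Option (List Bool)) (r : ℕ) (t : List Bool) :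
    rdw Md.B (seg gs r) (false :: t) = some (Md.B, t ++ [false]) := by
  show rdw Md.B ([false, true, true] ++ pre (gs (r + 1))) (false :: t) = _
  rw [rdw_append, rdw_plain]
  exact rdw_pre_B _ _

theorem rdw_seg_one (gs : ℕ → Option (List Bool)) (r : ℕ) (t D : List Bool) (h : gs (r + 1) = some D) :
    rdw Md.B (seg gs r) (true :: (z (D.length + 1) ++ t)) = some (Md.B, t ++ false :: (ec D ++ [false])) := by
  show rdw Md.B ([false, true, true] ++ pre (gs (r + 1))) (true :: (z (D.length + 1) ++ t)) = _
  rw [rdw_append, rdw_plain, h]
  show rdw Md.C (pre (some D)) (z (D.length + 1) ++ t ++ [false]) = _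
  rw [List.append_assoc, rdw_pre_C]
  simp

theorem rdw_seg_none (gs : ℕ → Option (List Bool)) (r : ℕ) (t : List Bool) (h : gs (r + 1) = none) :
    rdw Md.B (seg gs r) (true :: t) = some (Md.C, t ++ [false]) := by
  show rdw Md.B ([false, true, true] ++ pre (gs (r + 1))) (true :: t) = _
  rw [rdw_append, rdw_plain, h]
  rfl

end R913
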