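import Pool.Agent.Lib.R913.RRead
import Pool.Agent.Lib.R913.RWord
import Pool.Agent.Lib.R913.REn

/-!
# Module RSim: a machine with the local computations simulates all group systems

PROOF of `gsim_of_rloc`.  `en = ren K gs β`, `dec = rdec K gs β`; for `c`, `m = β * (c + 1)`,
`C (r, t) = K.CQ Md.B (prg gs m r) t`.
Start: `init (en c t) = AR [] 0 (..)` (`AR [] 0 r = ⟨wordTape r, 0, some 0⟩`), `K.start`, `passRs`: this is
`K.CF Md.B false p t` with `prg gs m 0 = false :: p` (`prg_head`, `prg_eq`).
Steps: `prg_succ` gives `X`; `GS.zero`: `rdw_seg_zero`, `GS.one`: `rdw_seg_one`; `CQ_read_pos` with `u = seg gs r`, `P' = X`.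
`(C s).st ≠ none`: `AR` has the state `some _`.
Halting: `gs (r + 1) = none`: `rdw_seg_none` and `CQ_read` lead to `K.CQ Md.C (X ++ seg gs r) (t' ++ [false])` and
`X ++ seg gs r = prg gs m (r + 1) = false :: p` (`prg_head`): `K.halt` with `l = (p.flatMap cl).reverse ++ E.reverse`; the tape is
`wordTape (E ++ (p.flatMap cl ++ (fh ++ (t' ++ [false]).flatMap cr)))`; `Rn_halt_iff` for the run from `C (r, true :: t')`.
`w = ([], the list as numbers)`: `IsCode`: the cells `i ≥ 0` (`wordTape`, `List.getD_map`-like), the negative cells are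
blank, the last symbol is not blank: the last word is `cr false` (`K.cr_last false`; the numbers: `(s : ℕ) ≠ 0` iff `s ≠ 0`).
`rdec_spec` with `p.length + 1 = (prg ..).length = (c + 1) * ..` (`prg_len`).  Length: every `cr b` has length `≥ 1`, so
`t'.length ≤ w.2.length`.
-/

set_option autoImplicit false

namespace R913

open P913

namespace RSimAux

theorem last_append {α : Type} (a b : List α) (s : α) (h : b.getLast? = some s) :
    (a ++ b).getLast? = some s := by
  rw [List.getLast?_append, h]
  rfl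

theorem len_flatMap {α β : Type} (f : α → List β) (hf : ∀ a, 1 ≤ (f a).length) (t : List α) :
    t.length ≤ (t.flatMap f).length := by
  induction t with
  | nil => simp
  | cons a t ih =>
    rw [List.flatMap_cons, List.length_append, List.length_cons]
    have := hf a
    omega

end RSimAux

section

variable {k n : ℕ} [NeZero k] [NeZero n] {U : TM k n}

theorem wordTape_isCode (x : List (Fin n)) (s : Fin n) (h : x.getLast? = some s) (hs : s ≠ 0) :
    IsCode ([], x.map fun s : Fin n => (s : ℕ)) (wordTape x) := by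
  refine ⟨?_, ?_, ?_, ?_⟩
  · intro i
    have h0 : (0 : ℤ) ≤ (i : ℤ) := Int.natCast_nonneg i
    simp only [wordTape, if_pos h0, Int.toNat_natCast]
    rw [List.getD_eq_getElem?_getD, List.getD_eq_getElem?_getD, List.getElem?_map]
    cases x[i]? with
    | none => simp
    | some s => simp
  · intro i
    have h0 : ¬ (0 : ℤ) ≤ -(i : ℤ) - 1 := by omega
    simp only [wordTape]
    rw [if_neg h0]
    simp
  · simp
  · show (List.map (fun s : Fin n => (s : ℕ)) x).getLast? ≠ some 0
    rw [List.getLast?_map, h]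
    intro h2
    apply hs
    have h1 : (s : ℕ) = 0 := by simpa using h2
    exact Fin.ext (by simpa using h1)

theorem rsim_step (K : RLoc U) (gs : ℕ → Option (List Bool)) (m : ℕ) (hm : 0 < m) (hg : ∀ s, gs (s + m) = gs s)
    (s s' : ℕ × List Bool) (h : GS gs s s') :
    Rp U (K.CQ Md.B (prg gs m s.1) s.2) (K.CQ Md.B (prg gs m s'.1) s'.2) := by
  cases h with
  | zero r t =>
    obtain ⟨X, h1, h2⟩ := prg_succ gs m r hm hg
    simp only
    rw [h1, h2]
    exact CQ_read_pos K Md.B Md.B (seg gs r) X (false :: t) (t ++ [false]) (by simp [seg])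
      (rdw_seg_zero gs r t)
  | one r t D hD =>
    obtain ⟨X, h1, h2⟩ := prg_succ gs m r hm hg
    simp only
    rw [h1, h2]
    exact CQ_read_pos K Md.B Md.B (seg gs r) X _ _ (by simp [seg]) (rdw_seg_one gs r t D hD)

theorem rsim_halt (K : RLoc U) (gs : ℕ → Option (List Bool)) (m : ℕ) (hm : 0 < m) (hg : ∀ s, gs (s + m) = gs s)
    (r : ℕ) (t' : List Bool) (h : gs (r + 1) = none) :
    ∃ p : List Bool, p.length + 1 = (prg gs m (r + 1)).length ∧
      ∃ j : ℕ, ((step U)^[j] (K.CQ Md.B (prg gs m r) (true :: t'))).st = none ∧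
        ((step U)^[j] (K.CQ Md.B (prg gs m r) (true :: t'))).tape =
          wordTape (K.E ++ (p.flatMap K.cl ++ (K.fh ++ (t' ++ [false]).flatMap K.cr))) := by
  obtain ⟨X, h1, h2⟩ := prg_succ gs m r hm hg
  obtain ⟨p, hp⟩ := prg_head gs m (r + 1) hm
  refine ⟨p, by rw [hp, List.length_cons], ?_⟩
  have h3 := CQ_read K Md.B Md.C (seg gs r) X (true :: t') (t' ++ [false]) (rdw_seg_none gs r t' h)
  rw [← h1, ← h2, hp] at h3
  rw [Rn_halt_iff h3]
  obtain ⟨j, hj1, hj2⟩ := K.halt ((p.flatMap K.cl).reverse ++ K.E.reverse) ((t' ++ [false]).flatMap K.cr)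
  have e : K.CQ Md.C (false :: p) (t' ++ [false]) =
      AR ((p.flatMap K.cl).reverse ++ K.E.reverse) (K.R false) (K.fr Md.C ++ (t' ++ [false]).flatMap K.cr) := rfl
  refine ⟨j, ?_, ?_⟩
  · rw [e]
    exact hj1
  · rw [e, hj2]
    congr 1
    rw [List.reverse_append, List.reverse_reverse, List.reverse_reverse, List.append_assoc]

theorem gsim_of_rloc (K : RLoc U) : GSim U := by
  intro β gs hβ hper
  refine ⟨ren K gs β, rdec K gs β, ren_comp K gs β, rdec_comp K gs β, fun c t =>
    ⟨fun s => K.CQ Md.B (prg gs (β * (c + 1)) s.1) s.2, ?_, ?_, ?_, ?_⟩⟩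
  · have hm : 0 < β * (c + 1) := Nat.mul_pos hβ (Nat.succ_pos c)
    obtain ⟨p, hp⟩ := prg_head gs (β * (c + 1)) 0 hm
    have hp' : ((List.replicate (c + 1) (prg gs β 0)).flatten.tail) = p := by
      rw [← prg_eq gs β c hper, hp, List.tail_cons]
    have e0 : init (k := k) (ren K gs β c t) =
        AR [] 0 (K.E ++ (p.flatMap K.cr ++ (K.fr Md.B ++ t.flatMap K.cr))) := by
      unfold ren
      rw [hp']
      rfl
    have e1 : K.CQ Md.B (prg gs (β * (c + 1)) 0) t =
        AR ((p.flatMap K.cl).reverse ++ K.E.reverse) (K.R false) (K.fr Md.B ++ t.flatMap K.cr) := by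
      rw [hp]
      rfl
    show Rn U (init (ren K gs β c t)) (K.CQ Md.B (prg gs (β * (c + 1)) 0) t)
    rw [e0, e1]
    exact (K.start _).trans (passRs K false p K.E.reverse _)
  · intro s s' hs
    exact rsim_step K gs (β * (c + 1)) (Nat.mul_pos hβ (Nat.succ_pos c)) (gs_period gs β c hper) s s' hs
  · intro s
    show (K.CQ Md.B (prg gs (β * (c + 1)) s.1) s.2).st ≠ none
    unfold RLoc.CQ RLoc.CF AR
    simp
  · intro r t' hr
    obtain ⟨p, hp, j, hj1, hj2⟩ := rsim_halt K gs (β * (c + 1)) (Nat.mul_pos hβ (Nat.succ_pos c))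
      (gs_period gs β c hper) r t' hr
    obtain ⟨s, hs1, hs2⟩ := K.cr_last false
    have hlast : (K.E ++ (p.flatMap K.cl ++ (K.fh ++ (t' ++ [false]).flatMap K.cr))).getLast? = some s := by
      apply RSimAux.last_append
      apply RSimAux.last_append
      apply RSimAux.last_append
      rw [List.flatMap_append]
      apply RSimAux.last_append
      simpa using hs1
    refine ⟨_, ([], (K.E ++ (p.flatMap K.cl ++ (K.fh ++ (t' ++ [false]).flatMap K.cr))).map
      fun s : Fin n => (s : ℕ)), ⟨j, hj1, hj2⟩, wordTape_isCode _ s hlast hs2, ?_, ?_⟩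
    · exact rdec_spec K gs β c p (t' ++ [false]) hβ (by rw [hp, prg_len gs β c (r + 1) hβ hper]) []
    · have h1 : t'.length ≤ (t'.flatMap K.cr).length := by
        apply RSimAux.len_flatMap
        intro b
        obtain ⟨s', hs', _⟩ := K.cr_last b
        rcases hb : K.cr b with _ | ⟨x, y⟩
        · rw [hb] at hs'
          simp at hs'
        · simp
      simp only [List.length_map, List.length_append, List.flatMap_append]
      omega

end

end R913
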