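import Pool.Agent.Lib.R913.BMSim

/-!
# Module TInit: the initial data

`bitl m` = the bits of `m` (lowest first, with zeros at the end).  `tB (l, s, r)` = the data for the configuration
`(q0, l, s, r)`.

PROOFS.  `num_bitl`: more generally `num ((List.range j).map fun i => (Nat.div2^[i] m).bodd) = m` if `m < 2 ^ j`: induction on
`j` (`List.range_succ_eq_map`, `Nat.div2^[i + 1] m = Nat.div2^[i] m.div2`, `m = 2 * m.div2 + m.bodd.toNat`); `m < 2 ^ m`
(`Nat.lt_two_pow_self`).  `relB_init`: `RelQ` with `l = (... all symbols except the last one ...).map (·, 6)`, `a = sh 17`,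
`g = 24`, `x = n A + e1 (hb false) - 1`, `y = 20 bb + zc (sh 17) - x - 1` (`x + 1 = n A + e1 (hb false) ≤ n A + n - 1 < bb`), the
weights: `bmG ≤ 6` for the other symbols, `bmG (sh 17) = 24`.  `body` of `map (·, 6)` is the `flatMap` in the definition of `tB`.
`tB_comp`: `Primrec.comp`s: `bitl` (`Primrec.list_map`, `Primrec.list_range`, `Primrec.nat_iterate`, `Primrec.nat_bodd`,
`Primrec.nat_div2`), `List.reverse`, `flatMap` with a function of a `Bool` (`Primrec.list_flatMap`, `Primrec.dom_finite`),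
append (`Primrec.list_append`), constants (`Primrec.const`).
-/

set_option autoImplicit false

namespace R913

open P913

/-- the bits of `m` -/
def bitl (m : ℕ) : List Bool := (List.range m).map fun i => (Nat.div2^[i] m).bodd

section

variable {N n A : ℕ} (e1 : St N ≃ Fin n) (e2 : Sy N ≃ Fin A) (M : BM N)

/-- a symbol with its normal gap -/
def blkS (a : Sy N) : List Bool := H n e2 a ++ z (6 * bb n A + zc n e2 a)

/-- the number of zeros at the beginning -/
def xs0 : ℕ := n * A + e1 (St.hb false) - 1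

/-- the data for the configuration `(q0, l, s, r)` -/
def tB (q0 : Fin N) (p : ℕ × Bool × ℕ) : List Bool :=
  z (xs0 (A := A) e1) ++ (((bitl p.1).reverse.flatMap fun b => blkS (n := n) e2 (Sy.bit b)) ++
    (blkS (n := n) e2 (Sy.hd q0 p.2.1) ++ ((bitl p.2.2).flatMap fun b => blkS (n := n) e2 (Sy.bit b)) ++
      (H n e2 (Sy.sh 17) ++ z (20 * bb n A + zc n e2 (Sy.sh 17) - xs0 (A := A) e1 - 1))))

namespace TInitAux

theorem num_cons (b : Bool) (l : List Bool) : num (b :: l) = 2 * num l + b.toNat := rfl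

theorem num_gen (j : ℕ) : ∀ m : ℕ, m < 2 ^ j → num ((List.range j).map fun i => (Nat.div2^[i] m).bodd) = m := by
  induction j with
  | zero =>
    intro m hm
    simp only [pow_zero, Nat.lt_one_iff] at hm
    subst hm
    rfl
  | succ j ih =>
    intro m hm
    rw [List.range_succ_eq_map, List.map_cons, List.map_map, num_cons]
    have h1 : m.div2 < 2 ^ j := by
      rw [Nat.div2_val]
      rw [pow_succ] at hm
      omega
    have h2 : ((fun i => (Nat.div2^[i] m).bodd) ∘ Nat.succ) = fun i => (Nat.div2^[i] m.div2).bodd := by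
      funext i
      rfl
    rw [h2, ih _ h1]
    have h3 := Nat.bodd_add_div2 m
    show 2 * m.div2 + m.bodd.toNat = m
    omega

end TInitAux

theorem num_bitl (m : ℕ) : num (bitl m) = m := by
  exact TInitAux.num_gen m m Nat.lt_two_pow_self

theorem relB_init (q0 : Fin N) (p : ℕ × Bool × ℕ) : RelB e1 e2 M (q0, p) (0, tB e1 e2 q0 p) := by
  obtain ⟨l, sb, r⟩ := p
  have hn : (e1 (St.hb false) : ℕ) < n := (e1 (St.hb false)).2
  have hA : (e2 (Sy.sh 17) : ℕ) < A := (e2 (Sy.sh 17)).2
  have hpos : 1 ≤ n * A := Nat.mul_pos (by omega) (by omega)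
  have hbb : bb n A = 2 * (n * A + n - 1) + 1 := rfl
  refine ⟨bitl l, bitl r, num_bitl l, num_bitl r,
    ((bitl l).reverse.map Sy.bit ++ (Sy.hd q0 sb :: (bitl r).map Sy.bit)).map (fun a => (a, 6)), Sy.sh 17, 24,
    xs0 (A := A) e1, 20 * bb n A + zc n e2 (Sy.sh 17) - xs0 (A := A) e1 - 1, ?_, ?_, ?_, ?_, ?_, ?_⟩
  · rw [List.map_map]
    have h1 : (Prod.fst ∘ fun a : Sy N => (a, 6)) = id := rfl
    rw [h1, List.map_id]
    show bmw (bitl l) q0 sb (bitl r) = _
    unfold bmw
    simp
  · show tB e1 e2 q0 (l, sb, r) = _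
    unfold tB body blkS
    simp [List.flatMap_map, List.flatMap_append, List.flatMap_cons]
    rw [← List.map_reverse, List.flatMap_map]
    rfl
  · intro p hp
    rw [List.mem_map] at hp
    obtain ⟨a, ha, rfl⟩ := hp
    show bmG a ≤ 6
    rw [List.mem_append, List.mem_cons, List.mem_map, List.mem_map] at ha
    rcases ha with ⟨b, _, rfl⟩ | rfl | ⟨b, _, rfl⟩
    · exact le_rfl
    · exact le_rfl
    · exact le_rfl
  · show bmG (Sy.sh 17 : Sy N) ≤ 24
    simp [bmG]
  · unfold xs0
    omega
  · show (0 + 1 + xs0 (A := A) e1) % bb n A = (n * A + e1 (St.hb false)) % bb n A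
    unfold xs0
    congr 1
    omega

theorem tB_comp (q0 : Fin N) : Primrec (tB e1 e2 q0) := by
  have hb : ∀ f : Bool → List Bool, Primrec₂ fun (_ : ℕ × Bool × ℕ) (b : Bool) => f b := fun f =>
    (Primrec.dom_finite f).comp Primrec.snd
  have hbit : Primrec bitl := by
    unfold bitl
    refine Primrec.list_map Primrec.list_range ?_
    refine Primrec.nat_bodd.comp ?_
    exact Primrec.nat_iterate Primrec.snd Primrec.fst (Primrec.nat_div2.comp₂ Primrec₂.right)
  have h1 : Primrec fun p : ℕ × Bool × ℕ => (bitl p.1).reverse.flatMap fun b => blkS (n := n) e2 (Sy.bit b) :=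
    Primrec.list_flatMap (Primrec.list_reverse.comp (hbit.comp Primrec.fst)) (hb _)
  have h2 : Primrec fun p : ℕ × Bool × ℕ => (bitl p.2.2).flatMap fun b => blkS (n := n) e2 (Sy.bit b) :=
    Primrec.list_flatMap (hbit.comp (Primrec.snd.comp Primrec.snd)) (hb _)
  have h3 : Primrec fun p : ℕ × Bool × ℕ => blkS (n := n) e2 (Sy.hd q0 p.2.1) :=
    (Primrec.dom_finite fun b : Bool => blkS (n := n) e2 (Sy.hd q0 b)).comp (Primrec.fst.comp Primrec.snd)
  unfold tB
  refine Primrec.list_append.comp (Primrec.const _) ?_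
  refine Primrec.list_append.comp h1 ?_
  refine Primrec.list_append.comp ?_ (Primrec.const _)
  exact Primrec.list_append.comp h3 h2

end

end R913
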